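import Pool.Agent.TH333.CY.Ring
set_option autoImplicit false

/-!
The symbols are unramified at all discrete valuations.
-/

namespace Pool.Agent.TH333.CY

open scoped WithZero

open Pool.Agent.TH826.MK

open Pool.Agent.TH826.GA

open Pool.Agent.TH826.SX (symb_swap symb_eq_zero_of_sum_neg)

section pre

variable {L : Type*} [Field L] {n k N : ℕ}

/-- Multiplication by the symbol `{b_1, ..., b_k}` from the left. -/
noncomputable def pre (b : Fin k → Lˣ) : KQ L n →ₗ[ℚ] KQ L (k + n) :=
  KQ.lift (fun a => symb (Fin.append b a)) (by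
    intro a i y z
    have e : ∀ w : Lˣ, Fin.append b (Function.update a i w) =
        Function.update (Fin.append b a) (Fin.natAdd k i) w := by
      intro w
      funext j
      refine Fin.addCases (fun j => ?_) (fun j => ?_) j
      · rw [Function.update_of_ne, Fin.append_left, Fin.append_left]
        intro h
        have := congrArg Fin.val h
        simp only [Fin.val_castAdd, Fin.val_natAdd] at this
        have := j.isLt
        omega
      · rw [Fin.append_right]
        by_cases h : j = i
        · subst h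
          rw [Function.update_self, Function.update_self]
        · rw [Function.update_of_ne h, Function.update_of_ne, Fin.append_right]
          intro h2
          apply h
          apply Fin.ext
          have := congrArg Fin.val h2
          simp only [Fin.val_natAdd] at this
          omega
    rw [e, e, e, symb_update_mul]) (by
    rintro a ⟨i, j, hij, h⟩
    refine symb_eq_zero _ ⟨Fin.natAdd k i, Fin.natAdd k j, ?_, ?_⟩
    · rw [Fin.lt_def] at hij ⊢
      simp only [Fin.val_natAdd]
      omega
    · rw [Fin.append_right, Fin.append_right]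
      exact h)

theorem pre_symb (b : Fin k → Lˣ) (a : Fin n → Lˣ) :
    pre b (symb a) = symb (Fin.append b a) := by
  unfold pre
  rw [KQ.lift_symb]

/-- A symbol `P a` with the entries `a_1, ..., a_n` and other entries, which depends linearly on the
symbol of `a`, lies in the unit part, if the `a_k` are integral with sum congruent to `-1`. -/
theorem lin_mem_unitPart_of_sum (v : Valuation L ℤᵐ⁰) (P : (Fin n → Lˣ) → (Fin N → Lˣ))
    (e : Fin n → Fin N) (hP : ∀ a k, P a (e k) = a k) (T : KQ L n →ₗ[ℚ] KQ L N)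
    (hT : ∀ a, T (symb a) = symb (P a)) (a : Fin n → Lˣ)
    (h1 : ∀ k, v (a k : L) ≤ 1) (h : v (1 + ∑ k, (a k : L)) < 1) :
    symb (P a) ∈ unitPart v N := by
  classical
  set U : Finset (Fin n) := Finset.univ.filter fun k => v (a k : L) = 1 with hU
  have hrest : v (∑ k ∈ Finset.univ.filter (fun k => ¬ v (a k : L) = 1), (a k : L)) < 1 := by
    refine Valuation.map_sum_lt v one_ne_zero fun k hk => ?_
    exact lt_of_le_of_ne (h1 k) (Finset.mem_filter.1 hk).2
  have hTsum : v (1 + ∑ k ∈ U, (a k : L)) < 1 := by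
    have e : 1 + ∑ k ∈ U, (a k : L) = (1 + ∑ k, (a k : L)) -
        ∑ k ∈ Finset.univ.filter (fun k => ¬ v (a k : L) = 1), (a k : L) := by
      rw [← Finset.sum_filter_add_sum_filter_not Finset.univ (fun k => v (a k : L) = 1)]
      ring
    rw [e]
    exact (v.map_sub _ _).trans_lt (max_lt h hrest)
  have hne : U.Nonempty := by
    by_contra hcon
    rw [Finset.not_nonempty_iff_eq_empty] at hcon
    rw [hcon, Finset.sum_empty, add_zero, map_one] at hTsum
    exact lt_irrefl _ hTsum
  obtain ⟨t, ht⟩ := hne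
  have hvt : v (a t : L) = 1 := (Finset.mem_filter.1 ht).2
  set x : L := -1 - ∑ k ∈ U.erase t, (a k : L) with hx
  have hsub : (a t : L) - x = 1 + ∑ k ∈ U, (a k : L) := by
    rw [hx, ← Finset.add_sum_erase U _ ht]
    ring
  have hve : v x = 1 := by
    have e1 : x = a t - ((a t : L) - x) := by ring
    rw [e1, hsub, ← hvt]
    refine Valuation.map_sub_eq_of_lt_left v ?_
    rw [hvt]
    exact hTsum
  have hx0 : x ≠ 0 := by
    intro h0
    rw [h0, map_zero] at hve
    exact zero_ne_one hve
  set x' : Lˣ := Units.mk0 x hx0 with hx'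
  have hq : a t = x' * (a t / x') := by rw [mul_div_cancel]
  have h2 : symb a = symb (Function.update a t x') + symb (Function.update a t (a t / x')) := by
    rw [← symb_update_mul, ← hq, Function.update_eq_self]
  have h3 : symb (Function.update a t x') = 0 := by
    rw [symb_eq_zero_of_sum_neg U]
    rw [← Finset.add_sum_erase U _ ht, Function.update_self,
      Finset.sum_congr rfl fun k hk => by rw [Function.update_of_ne (Finset.ne_of_mem_erase hk)],
      hx', Units.val_mk0, hx]
    ring
  rw [h3, zero_add] at h2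
  rw [← hT, h2, hT]
  refine mem_unitPart_of_oneUnit' v (e t) _ ?_
  rw [hP, Function.update_self, Units.val_div_eq_div_val, hx', Units.val_mk0,
    div_sub_one hx0, map_div₀, hve, div_one, hsub]
  exact hTsum

/-- The same for the entries `z_1/z_0, ..., z_n/z_0`, if the sum of the `z_k` is of smaller order
than the largest `z_k`. -/
theorem lin_mem_unitPart_of_sum_lt (v : Valuation L ℤᵐ⁰) (P : (Fin n → Lˣ) → (Fin N → Lˣ))
    (e : Fin n → Fin N) (hP : ∀ a k, P a (e k) = a k) (T : KQ L n →ₗ[ℚ] KQ L N)
    (hT : ∀ a, T (symb a) = symb (P a)) (z : Fin (n + 1) → Lˣ)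
    (l : Fin (n + 1)) (hl : ∀ k, v (z k : L) ≤ v (z l : L))
    (h : v (∑ k, (z k : L)) < v (z l : L)) :
    symb (P fun k : Fin n => z k.succ / z 0) ∈ unitPart v N := by
  have hdiv : ∀ k j, ((z k / z j : Lˣ) : L) = (z k : L) / (z j : L) := fun k j =>
    Units.val_div_eq_div_val _ _
  have hl0 : (z l : L) ≠ 0 := (z l).ne_zero
  have hvl0 : 0 < v (z l : L) := by
    rw [Valuation.pos_iff]
    exact hl0
  have hle : ∀ k, v ((z k : L) / z l) ≤ 1 := by
    intro k
    rw [map_div₀, div_le_one₀ hvl0]
    exact hl k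
  have hlt : v ((∑ k, (z k : L)) / z l) < 1 := by
    rw [map_div₀, div_lt_one₀ hvl0]
    exact h
  revert hl0 hvl0 hle hlt
  refine Fin.cases ?_ (fun l => ?_) l
  · intro hl0 hvl0 hle hlt
    refine lin_mem_unitPart_of_sum v P e hP T hT _ (fun k => ?_) ?_
    · rw [hdiv]
      exact hle _
    · simp only [hdiv]
      have e : 1 + ∑ k : Fin n, (z k.succ : L) / z 0 = (∑ k, (z k : L)) / z 0 := by
        rw [Fin.sum_univ_succ, add_div, Finset.sum_div, div_self hl0]
      rw [e]
      exact hlt
  · intro hl0 hvl0 hle hlt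
    rw [← hT, symb_swap z l, map_neg, hT]
    refine Submodule.neg_mem _ (lin_mem_unitPart_of_sum v P e hP T hT _ (fun k => ?_) ?_)
    · by_cases hk : k = l
      · rw [if_pos hk, hdiv]; exact hle _
      · rw [if_neg hk, hdiv]; exact hle _
    · have e : 1 + ∑ k : Fin n, ((if k = l then z 0 / z l.succ else z k.succ / z l.succ : Lˣ) : L) =
          (∑ k, (z k : L)) / z l.succ := by
        rw [Fin.sum_univ_succ, ← Finset.add_sum_erase _ _ (Finset.mem_univ l),
          ← Finset.add_sum_erase Finset.univ (fun k : Fin n => (z k.succ : L))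
            (Finset.mem_univ l), if_pos rfl,
          Finset.sum_congr rfl fun k hk => by rw [if_neg (Finset.ne_of_mem_erase hk), hdiv],
          ← Finset.sum_div, hdiv]
        field_simp
        ring
      rw [e]
      exact hlt

/-- The symbols `{x, b_1, ..., b_k, z_1/z_0, ..., z_n/z_0}` lie in the unit part, if the sum of the
`z_j` is of smaller order than the largest `z_j`. -/
theorem cons_append_mem_unitPart (v : Valuation L ℤᵐ⁰) (x : Lˣ) (b : Fin k → Lˣ)
    (z : Fin (n + 1) → Lˣ) (l : Fin (n + 1)) (hl : ∀ k, v (z k : L) ≤ v (z l : L))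
    (h : v (∑ k, (z k : L)) < v (z l : L)) :
    symb (Fin.cons x (Fin.append b fun j : Fin n => z j.succ / z 0) : Fin (k + n + 1) → Lˣ) ∈
      unitPart v (k + n + 1) := by
  refine lin_mem_unitPart_of_sum_lt v
    (fun a => (Fin.cons x (Fin.append b a) : Fin (k + n + 1) → Lˣ))
    (fun j => (Fin.natAdd k j).succ) (fun a j => ?_)
    ((Pool.Agent.TH826.DC.cup x).comp (pre b)) (fun a => ?_) z l hl h
  · rw [Fin.cons_succ, Fin.append_right]
  · rw [LinearMap.comp_apply, pre_symb, Pool.Agent.TH826.DC.cup_symb]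

end pre

section one

/-- If `u ≤ 1`, `t_i ≤ 1` and `u ∏ t_i = 1`, then all factors are `1`. -/
theorem all_one {ι : Type*} [Fintype ι] [DecidableEq ι] {t : ι → ℤᵐ⁰} {u : ℤᵐ⁰}
    (ht : ∀ i, t i ≤ 1) (hu : u ≤ 1) (h : u * ∏ i, t i = 1) : u = 1 ∧ ∀ i, t i = 1 := by
  have hp : ∏ i, t i ≤ 1 := Finset.prod_le_one' fun j _ => ht j
  constructor
  · refine le_antisymm hu ?_
    calc (1 : ℤᵐ⁰) = u * ∏ i, t i := h.symm
      _ ≤ u * 1 := mul_le_mul' le_rfl hp
      _ = u := mul_one u
  · intro i
    refine le_antisymm (ht i) ?_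
    have h1 : ∏ x ∈ Finset.univ.erase i, t x ≤ 1 := Finset.prod_le_one' fun j _ => ht j
    calc (1 : ℤᵐ⁰) = u * (t i * ∏ x ∈ Finset.univ.erase i, t x) := by
          rw [Finset.mul_prod_erase _ _ (Finset.mem_univ i), h]
      _ ≤ 1 * (t i * 1) := mul_le_mul' hu (mul_le_mul' le_rfl h1)
      _ = t i := by rw [one_mul, mul_one]

open Polynomial in
/-- `z^N - 1` is an integral multiple of `z² + k z + 1`. -/
theorem exists_quot {K : Type*} [Field K] {k : K} (hk : IsIntegral ℤ k) {N : ℕ}
    (h : (X ^ 2 + C k * X + 1 : K[X]) ∣ X ^ N - 1) :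
    ∃ q : K[X], (∀ i, IsIntegral ℤ (q.coeff i)) ∧
      (X ^ N - 1 : K[X]) = (X ^ 2 + C k * X + 1) * q := by
  set O := integralClosure ℤ K with hO
  set k' : O := ⟨k, hk⟩ with hk'
  have hinj : Function.Injective (algebraMap O K) := Subtype.val_injective
  have hm : (X ^ 2 + C k' * X + 1 : O[X]).Monic := by monicity!
  have e1 : (X ^ 2 + C k' * X + 1 : O[X]).map (algebraMap O K) = X ^ 2 + C k * X + 1 := by
    simp only [Polynomial.map_add, Polynomial.map_mul, Polynomial.map_pow, Polynomial.map_X,
      Polynomial.map_C, Polynomial.map_one]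
    rfl
  have e2 : (X ^ N - 1 : O[X]).map (algebraMap O K) = X ^ N - 1 := by
    simp only [Polynomial.map_sub, Polynomial.map_pow, Polynomial.map_X, Polynomial.map_one]
  rw [← e1, ← e2, Polynomial.map_dvd_map _ hinj hm] at h
  obtain ⟨q, hq⟩ := h
  refine ⟨q.map (algebraMap O K), fun i => ?_, ?_⟩
  · rw [coeff_map]
    exact (q.coeff i).2
  · rw [← e1, ← e2, hq, Polynomial.map_mul]

theorem val_pow_sub_one {K L : Type*} [Field K] [Field L] (g : K →+* L) (v : Valuation L ℤᵐ⁰)
    {k : K} (hk : IsIntegral ℤ k) {N : ℕ}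
    (h : (Polynomial.X ^ 2 + Polynomial.C k * Polynomial.X + 1 : Polynomial K) ∣
      Polynomial.X ^ N - 1) {w : L} (hw : v w ≤ 1) (h1 : v (w ^ 2 + g k * w + 1) < 1) :
    v (w ^ N - 1) < 1 := by
  obtain ⟨q, hq, he⟩ := exists_quot hk h
  have h2 := congrArg (Polynomial.eval₂ g w) he
  simp only [Polynomial.eval₂_sub, Polynomial.eval₂_mul, Polynomial.eval₂_add,
    Polynomial.eval₂_pow, Polynomial.eval₂_X, Polynomial.eval₂_C, Polynomial.eval₂_one] at h2
  have h3 : v (q.eval₂ g w) ≤ 1 := by
    rw [Polynomial.eval₂_eq_sum_range]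
    refine Valuation.map_sum_le v fun i _ => ?_
    rw [map_mul, map_pow]
    exact mul_le_one' (val_le_one_of_integral v (map_isIntegral_int _ (hq i)))
      (pow_le_one' hw i)
  rw [h2, map_mul]
  calc _ ≤ v (w ^ 2 + g k * w + 1) * 1 := mul_le_mul' le_rfl h3
    _ = _ := mul_one _
    _ < 1 := h1

end one

section Unram

variable {K : Type*} [Field K] {s d m : ℕ} {lam : K} {κ : Fin (s + 1) → K}
  {c : Fin (m + 1) → Fin (d + 1) → K} {a : Fin (m + 1) → K}

variable {L : Type*} [Field L] (f : YOpen lam κ c a →+* L)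

/-- the composite map from the coefficient field -/
noncomputable def cY : K →+* L := f.comp (ycst lam κ c a)

/-- the image of `x_j` -/
noncomputable def xY (j : Fin (d + 1)) : L :=
  f (toY lam κ c a (ypol lam κ c a (MvPolynomial.X (Sum.inr j))))

/-- the image of `z_j` -/
noncomputable def zY (j : Fin (s + 1)) : L :=
  f (toY lam κ c a (ypol lam κ c a (MvPolynomial.X (Sum.inl j))))

/-- the image of `L_e` -/
noncomputable def lY (e : Fin (m + 1)) : L := ∑ j, cY f (c e j) * xY f j - cY f (a e)

theorem map_lf (e : Fin (m + 1)) :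
    f (toY lam κ c a (ypol lam κ c a (MvPolynomial.rename Sum.inr (lf c a e)))) = lY f e := by
  unfold lf lY cY xY ycst
  simp only [map_sub, map_sum, map_mul, MvPolynomial.rename_C, MvPolynomial.rename_X]
  rfl

theorem map_yu (e : Fin (m + 1)) : f (yu lam κ c a e : YOpen lam κ c a) = lY f e := by
  rw [coe_yu, map_lf]

theorem map_cPhi : f (toY lam κ c a (ypol lam κ c a (cPhi lam c a s))) =
    cY f lam * ∏ e, lY f e := by
  unfold cPhi Pool.Agent.TH826.DC.dPhi
  rw [map_mul, map_mul, map_mul, map_mul, map_prod, map_prod, map_prod, map_prod,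
    MvPolynomial.rename_C]
  simp only [map_lf]
  rfl

theorem map_cfac (j : Fin (s + 1)) : f (toY lam κ c a (ypol lam κ c a (cfac κ d j))) =
    zY f j ^ 2 + cY f (κ j) * zY f j + 1 := by
  unfold cfac
  simp only [map_add, map_mul, map_pow, map_one]
  rfl

theorem zY_eq : ∏ j, (zY f j ^ 2 + cY f (κ j) * zY f j + 1) =
    (cY f lam * ∏ e, lY f e) * ∏ j, zY f j := by
  have h := congrArg (fun b => f (toY lam κ c a b)) (ypol_ceqn lam κ c a)
  unfold ceqn cmon at h
  simp only [map_sub, map_mul, map_zero, map_prod, map_cPhi, map_cfac, sub_eq_zero] at h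
  exact h

theorem zY_ne_zero (j : Fin (s + 1)) : zY f j ≠ 0 := ((isUnit_yz lam κ c a j).map f).ne_zero

theorem lY_ne_zero (e : Fin (m + 1)) : lY f e ≠ 0 := by
  rw [← map_lf]
  exact ((isUnit_yl lam κ c a e).map f).ne_zero

theorem cYlam_ne_zero : cY f lam ≠ 0 := by
  have h := ((isUnit_ydel lam κ c a).map f).ne_zero
  unfold ydel at h
  rw [map_mul, map_mul, map_mul, map_cPhi] at h
  exact left_ne_zero_of_mul (left_ne_zero_of_mul h)

theorem map_yg (hA : Unimod c a) {S : Fin (d + 2) → Fin (m + 1)} (hS : Function.Injective S)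
    (i : Fin (d + 2)) : f (yg lam κ c a S i : YOpen lam κ c a) =
      cY f (gam c S i) * lY f (S i) := by
  unfold yg
  rw [Units.val_mul, map_mul, map_yu]
  congr 1
  rw [Units.coe_map]
  show f (ycst lam κ c a (ku (gam c S i) : K)) = _
  rw [coe_ku (hA.gam_ne hS i)]
  rfl

theorem sum_yg {S : Fin (d + 2) → Fin (m + 1)} :
    ∑ i, cY f (gam c S i) * lY f (S i) = - ∑ i, cY f (gam c S i * a (S i)) := by
  have h1 : ∀ i, cY f (gam c S i) * lY f (S i) =
      ∑ j, cY f (gam c S i * c (S i) j) * xY f j - cY f (gam c S i * a (S i)) := by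
    intro i
    unfold lY
    rw [mul_sub, Finset.mul_sum]
    simp only [map_mul, mul_assoc]
  simp only [h1, Finset.sum_sub_distrib]
  rw [Finset.sum_comm]
  have h2 : ∀ j, ∑ i, cY f (gam c S i * c (S i) j) * xY f j = 0 := by
    intro j
    rw [← Finset.sum_mul, ← map_sum, sum_gam, map_zero, zero_mul]
  simp only [h2, Finset.sum_const_zero, zero_sub]

/-- The coordinates are integral combinations of `d + 1` of the forms. -/
theorem xY_eq (hA : Unimod c a) {T : Fin (d + 1) → Fin (m + 1)} (hT : Function.Injective T)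
    (j : Fin (d + 1)) : xY f j =
      ∑ i, cY f (((cm c T).det)⁻¹ * (cm c T).adjugate j i) * (lY f (T i) + cY f (a (T i))) := by
  have h1 : ∀ i, lY f (T i) + cY f (a (T i)) = ∑ l, cY f (cm c T i l) * xY f l := by
    intro i
    unfold lY cm
    simp
  simp only [h1, Finset.mul_sum]
  rw [Finset.sum_comm]
  have h2 : ∀ l, ∑ i, cY f (((cm c T).det)⁻¹ * (cm c T).adjugate j i) *
      (cY f (cm c T i l) * xY f l) = (if j = l then 1 else 0) * xY f l := by
    intro l
    simp only [← mul_assoc, ← Finset.sum_mul, ← map_mul, ← map_sum]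
    congr 1
    have h3 : ∑ i, ((cm c T).det)⁻¹ * (cm c T).adjugate j i * cm c T i l =
        if j = l then 1 else 0 := by
      simp only [mul_assoc, ← Finset.mul_sum]
      have h4 := congrFun (congrFun (Matrix.adjugate_mul (cm c T)) j) l
      rw [Matrix.mul_apply] at h4
      rw [h4, Matrix.smul_apply, Matrix.one_apply, smul_eq_mul, ← mul_assoc,
        inv_mul_cancel₀ (hA.det_ne T hT), one_mul]
    rw [h3]
    split_ifs <;> simp
  simp only [h2]
  simp

/-- The symbols are unramified at all discrete valuations. -/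
theorem symb_mem_unitPart (hlam : IsIntegral ℤ lam) (hA : Unimod c a)
    (hκ : ∀ j, IsIntegral ℤ (κ j)) {N : ℕ} (hN0 : N ≠ 0)
    (hN : ∀ j, (Polynomial.X ^ 2 + Polynomial.C (κ j) * Polynomial.X + 1 : Polynomial K) ∣
      Polynomial.X ^ N - 1)
    (v : Valuation L ℤᵐ⁰) {S : Fin (d + 2) → Fin (m + 1)} (hS : Function.Injective S) :
    symb (fun l => Units.map (f : YOpen lam κ c a →* L) (yent lam κ c a S l)) ∈
      unitPart v (s + (d + 1) + 1) := by
  classical
  have hc : ∀ x : K, IsIntegral ℤ x → v (cY f x) ≤ 1 := fun x hx =>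
    val_le_one_of_integral v (map_isIntegral_int _ hx)
  set z : Fin (d + 2) → Lˣ := fun k => Units.map (f : YOpen lam κ c a →* L) (yg lam κ c a S k)
    with hz
  set w : Fin (s + 1) → Lˣ := fun j => Units.map (f : YOpen lam κ c a →* L) (uz lam κ c a j)
    with hw
  have hwv : ∀ j, (w j : L) = zY f j := fun j => rfl
  have hzv : ∀ k, (z k : L) = cY f (gam c S k) * lY f (S k) := fun k => map_yg f hA hS k
  have hgam : ∀ k, v (cY f (gam c S k)) = 1 := by
    intro k
    refine le_antisymm (hc _ (hA.gam_int S k)) ?_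
    have h1 := hc _ (hA.gam_inv hS k)
    rw [map_inv₀, map_inv₀] at h1
    have h0 : cY f (gam c S k) ≠ 0 := (map_ne_zero _).2 (hA.gam_ne hS k)
    rwa [inv_le_one₀ (by rw [Valuation.pos_iff]; exact h0)] at h1
  have hvz : ∀ k, v (z k : L) = v (lY f (S k)) := by
    intro k
    rw [hzv, map_mul, hgam, one_mul]
  have hent : (fun l => Units.map (f : YOpen lam κ c a →* L) (yent lam κ c a S l)) =
      (Fin.cons (w 0) (Fin.append (fun j : Fin s => w j.succ)
        fun l : Fin (d + 1) => z l.succ / z 0) : Fin (s + (d + 1) + 1) → Lˣ) := by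
    funext l
    refine Fin.cases ?_ (fun l => ?_) l
    · rfl
    · unfold yent
      rw [Fin.cons_succ, Fin.cons_succ]
      refine Fin.addCases (fun j => ?_) (fun j => ?_) l
      · rw [Fin.append_left, Fin.append_left]
      · rw [Fin.append_right, Fin.append_right]
        exact map_div (Units.map (f : YOpen lam κ c a →* L)) _ _
  rw [hent]
  -- the entry `w j`
  have hwent : ∀ j, ∃ i : Fin (s + (d + 1) + 1), (Fin.cons (w 0) (Fin.append
      (fun j : Fin s => w j.succ) fun l : Fin (d + 1) => z l.succ / z 0) :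
      Fin (s + (d + 1) + 1) → Lˣ) i = w j := by
    intro j
    refine Fin.cases ?_ (fun j => ?_) j
    · exact ⟨0, rfl⟩
    · refine ⟨(Fin.castAdd (d + 1) j).succ, ?_⟩
      rw [Fin.cons_succ, Fin.append_left]
  by_cases hB : ∃ k, 1 < v (z k : L)
  · obtain ⟨k, hk⟩ := hB
    obtain ⟨l, -, hl⟩ := Finset.exists_max_image Finset.univ (fun k => v (z k : L))
      ⟨k, Finset.mem_univ k⟩
    have h2 : 1 < v (z l : L) := hk.trans_le (hl k (Finset.mem_univ k))
    refine cons_append_mem_unitPart v (w 0) _ z l (fun k => hl k (Finset.mem_univ k)) ?_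
    refine lt_of_le_of_lt ?_ h2
    simp only [hzv]
    rw [sum_yg f, Valuation.map_neg]
    exact Valuation.map_sum_le v fun k _ => hc _ ((hA.gam_int S k).mul (hA.int_a _))
  · push Not at hB
    have hSk : ∀ k, v (lY f (S k)) ≤ 1 := fun k => by
      rw [← hvz]
      exact hB k
    -- the coordinates are integral
    have hT : Function.Injective fun p : Fin (d + 1) => S ((0 : Fin (d + 2)).succAbove p) :=
      injective_face hS 0
    have hx : ∀ j, v (xY f j) ≤ 1 := by
      intro j
      rw [xY_eq f hA hT j]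
      refine Valuation.map_sum_le v fun i _ => ?_
      rw [map_mul]
      refine mul_le_one' (hc _ ((hA.det_inv _ hT).mul (isIntegral_adj hA _ _ _))) ?_
      exact (v.map_add _ _).trans (max_le (hSk _) (hc _ (hA.int_a _)))
    have hle : ∀ e, v (lY f e) ≤ 1 := by
      intro e
      refine (v.map_sub _ _).trans (max_le ?_ (hc _ (hA.int_a _)))
      refine Valuation.map_sum_le v fun j _ => ?_
      rw [map_mul]
      exact mul_le_one' (hc _ (hA.int_c _ _)) (hx j)
    have hPhi : v (cY f lam * ∏ e, lY f e) ≤ 1 := by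
      rw [map_mul, map_prod]
      exact mul_le_one' (hc _ hlam) (Finset.prod_le_one' fun e _ => hle e)
    by_cases hB1 : ∃ j, v (zY f j) = 1 ∧ v (zY f j ^ 2 + cY f (κ j) * zY f j + 1) < 1
    · obtain ⟨j, hj1, hj2⟩ := hB1
      obtain ⟨i, hi⟩ := hwent j
      refine mem_unitPart_of_pow v i (m := N) _ hN0 ?_
      rw [hi, hwv]
      exact val_pow_sub_one (cY f) v (hκ j) (hN j) hj1.le hj2
    · push Not at hB1
      -- the factors
      have hlow : ∀ j, v (zY f j) < 1 → v (zY f j ^ 2 + cY f (κ j) * zY f j + 1) = 1 := by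
        intro j hj
        rw [add_comm]
        refine Valuation.map_one_add_of_lt v ?_
        refine (v.map_add _ _).trans_lt (max_lt ?_ ?_)
        · rw [map_pow]
          exact pow_lt_one₀ zero_le hj (by norm_num)
        · rw [map_mul]
          calc _ ≤ 1 * v (zY f j) := mul_le_mul' (hc _ (hκ j)) le_rfl
            _ = v (zY f j) := one_mul _
            _ < 1 := hj
      have hhigh : ∀ j, 1 < v (zY f j) →
          v (zY f j ^ 2 + cY f (κ j) * zY f j + 1) = v (zY f j) ^ 2 := by
        intro j hj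
        have hj2 : v (zY f j) < v (zY f j) ^ 2 := by
          rw [pow_two]
          exact lt_mul_of_one_lt_left (zero_lt_one.trans hj) hj
        rw [add_assoc, ← map_pow]
        refine Valuation.map_add_eq_of_lt_left v ?_
        rw [map_pow]
        refine (v.map_add _ _).trans_lt (max_lt ?_ ?_)
        · rw [map_mul]
          calc _ ≤ 1 * v (zY f j) := mul_le_mul' (hc _ (hκ j)) le_rfl
            _ = v (zY f j) := one_mul _
            _ < _ := hj2
        · rw [map_one]
          exact hj.trans hj2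
      have hg0 : ∀ j, v (zY f j ^ 2 + cY f (κ j) * zY f j + 1) ≠ 0 := by
        intro j h0
        have h1 := congrArg v (zY_eq f)
        rw [map_prod, Finset.prod_eq_zero (Finset.mem_univ j) h0] at h1
        have h2 : (cY f lam * ∏ e, lY f e) * ∏ j, zY f j ≠ 0 :=
          mul_ne_zero (mul_ne_zero (cYlam_ne_zero f)
            (Finset.prod_ne_zero_iff.2 fun e _ => lY_ne_zero f e))
            (Finset.prod_ne_zero_iff.2 fun j _ => zY_ne_zero f j)
        exact (Valuation.ne_zero_iff v).2 h2 h1.symm
      have ht : ∀ j, v (zY f j) / v (zY f j ^ 2 + cY f (κ j) * zY f j + 1) ≤ 1 := by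
        intro j
        rw [div_le_one₀ (zero_lt_iff.2 (hg0 j))]
        rcases lt_trichotomy (v (zY f j)) 1 with h | h | h
        · rw [hlow j h]
          exact h.le
        · rw [h]
          exact hB1 j h
        · rw [hhigh j h, pow_two]
          exact (lt_mul_of_one_lt_left (zero_lt_one.trans h) h).le
      have hprod : v (cY f lam * ∏ e, lY f e) *
          ∏ j, (v (zY f j) / v (zY f j ^ 2 + cY f (κ j) * zY f j + 1)) = 1 := by
        have h1 := congrArg v (zY_eq f)
        rw [map_mul, map_prod, map_prod] at h1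
        rw [Finset.prod_div_distrib, ← mul_div_assoc, ← h1]
        exact div_self (Finset.prod_ne_zero_iff.2 fun j _ => hg0 j)
      obtain ⟨hP1, hz1⟩ := all_one ht hPhi hprod
      have hz2 : ∀ j, v (zY f j) = 1 := by
        intro j
        have h1 := hz1 j
        rw [div_eq_one_iff_eq (hg0 j)] at h1
        rcases lt_trichotomy (v (zY f j)) 1 with h | h | h
        · rw [hlow j h] at h1
          exact h1
        · exact h
        · rw [hhigh j h, pow_two] at h1
          exact absurd h1 (lt_mul_of_one_lt_left (zero_lt_one.trans h) h).ne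
      rw [map_mul, map_prod] at hP1
      obtain ⟨-, hl1⟩ := all_one hle (hc _ hlam) hP1
      refine Submodule.subset_span ⟨_, fun l => ?_, rfl⟩
      refine Fin.cases ?_ (fun l => ?_) l
      · exact hz2 0
      · rw [Fin.cons_succ]
        refine Fin.addCases (fun j => ?_) (fun j => ?_) l
        · rw [Fin.append_left]
          exact hz2 j.succ
        · rw [Fin.append_right, Units.val_div_eq_div_val, map_div₀, hvz, hvz, hl1, hl1, div_one]

theorem symb_mem_unramified (hlam : IsIntegral ℤ lam) (hA : Unimod c a)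
    (hκ : ∀ j, IsIntegral ℤ (κ j)) {N : ℕ} (hN0 : N ≠ 0)
    (hN : ∀ j, (Polynomial.X ^ 2 + Polynomial.C (κ j) * Polynomial.X + 1 : Polynomial K) ∣
      Polynomial.X ^ N - 1)
    {S : Fin (d + 2) → Fin (m + 1)} (hS : Function.Injective S) :
    KQ.map (s + (d + 1) + 1) f (symb (yent lam κ c a S)) ∈
      Unramified L (s + (d + 1) + 1) := by
  rw [KQ.map_symb]
  unfold Unramified
  simp only [Submodule.mem_iInf]
  intro v _
  exact symb_mem_unitPart f hlam hA hκ hN0 hN v hS

end Unram

end Pool.Agent.TH333.CY
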