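import Pool.Agent.TH333.CY.Tori
import Pool.Agent.TH826.DC.Final
set_option autoImplicit false

/-!
The regulators of the symbols of the simplices on the fibrations, for large `λ`.
-/

namespace Pool.Agent.TH333.CY

open Filter Topology

open Pool.Agent.TH826.MK

open Pool.Agent.TH826.GA

open Pool.Agent.TH826.SX (det_ne_zero_near pairing_close)

open Pool.Agent.TH826.DC (wT exists_circles xw lc_xw contDiff_lcw contDiff_xw good_hs_comp
  norm_lw_hs_comp)

section index

variable {s d m : ℕ}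

/-- the functions which vanish at the vertex: the `z_j`, `j ≥ 1`, and the forms `T` -/
def TT (s : ℕ) (T : Fin (d + 1) → Fin (m + 1)) :
    Fin (s + (d + 1)) → Fin (m + 1) ⊕ (Fin s ⊕ Fin s) :=
  Fin.append (fun j => Sum.inr (Sum.inl j)) fun k => Sum.inl (T k)

theorem TT_left (T : Fin (d + 1) → Fin (m + 1)) (j : Fin s) :
    TT s T (Fin.castAdd (d + 1) j) = Sum.inr (Sum.inl j) := Fin.append_left _ _ _

theorem TT_right (T : Fin (d + 1) → Fin (m + 1)) (k : Fin (d + 1)) :
    TT s T (Fin.natAdd s k) = Sum.inl (T k) := Fin.append_right _ _ _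

theorem TT_injective {T : Fin (d + 1) → Fin (m + 1)} (hT : Function.Injective T) :
    Function.Injective (TT s T) := by
  intro i j
  refine Fin.addCases (fun i => ?_) (fun i => ?_) i <;>
    refine Fin.addCases (fun j => ?_) (fun j => ?_) j
  · rw [TT_left, TT_left]
    intro h
    have h1 := Sum.inl_injective (Sum.inr_injective h)
    rw [h1]
  · rw [TT_left, TT_right]
    intro h
    cases h
  · rw [TT_left, TT_right]
    intro h
    cases h
  · rw [TT_right, TT_right]
    intro h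
    have h1 := hT (Sum.inl_injective h)
    rw [h1]

theorem wT_inl_left (T : Fin (d + 1) → Fin (m + 1)) (e : Fin (m + 1)) (j : Fin s) :
    wT (TT s T) (Sum.inl e) (Fin.castAdd (d + 1) j) = 0 := by
  unfold wT
  rw [TT_left, if_neg (by simp)]

theorem wT_inl_right (T : Fin (d + 1) → Fin (m + 1)) (e : Fin (m + 1)) (k : Fin (d + 1)) :
    wT (TT s T) (Sum.inl e) (Fin.natAdd s k) = if T k = e then 1 else 0 := by
  unfold wT
  rw [TT_right]
  simp only [Sum.inl.injEq]

theorem wT_inr_left (T : Fin (d + 1) → Fin (m + 1)) (i j : Fin s) :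
    wT (TT s T) (Sum.inr (Sum.inl i)) (Fin.castAdd (d + 1) j) = if j = i then 1 else 0 := by
  unfold wT
  rw [TT_left]
  simp only [Sum.inr.injEq, Sum.inl.injEq]

theorem wT_inr_right (T : Fin (d + 1) → Fin (m + 1)) (i : Fin s) (k : Fin (d + 1)) :
    wT (TT s T) (Sum.inr (Sum.inl i)) (Fin.natAdd s k) = 0 := by
  unfold wT
  rw [TT_right, if_neg (by simp)]

theorem wT_inr_inr (T : Fin (d + 1) → Fin (m + 1)) (i : Fin s) (j : Fin (s + (d + 1))) :
    wT (TT s T) (Sum.inr (Sum.inr i)) j = 0 := by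
  unfold wT
  refine Fin.addCases (fun j => ?_) (fun j => ?_) j
  · rw [TT_left, if_neg (by simp)]
  · rw [TT_right, if_neg (by simp)]

theorem sum_wT (T : Fin (d + 1) → Fin (m + 1)) (j : Fin (s + (d + 1))) :
    ∑ i, wT (TT s T) i j = 1 := by
  unfold wT
  rw [Finset.sum_ite_eq]
  simp

/-- the matrix of the orders of the entries at the vertex `T` -/
noncomputable def RM (s : ℕ) (T : Fin (d + 1) → Fin (m + 1)) (S : Fin (d + 2) → Fin (m + 1)) :
    Matrix (Fin (s + (d + 1) + 1)) (Fin (s + (d + 1) + 1)) ℝ :=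
  Matrix.of (Fin.cons (fun _ => 1) (Fin.append
    (fun j : Fin s => Fin.cons 0 fun i => wT (TT s T) (Sum.inr (Sum.inl j)) i)
    fun k : Fin (d + 1) => Fin.cons 0 fun i =>
      wT (TT s T) (Sum.inl (S k.succ)) i - wT (TT s T) (Sum.inl (S 0)) i))

theorem RM_zero (T : Fin (d + 1) → Fin (m + 1)) (S : Fin (d + 2) → Fin (m + 1))
    (i : Fin (s + (d + 1) + 1)) : RM s T S 0 i = 1 := rfl

theorem RM_left (T : Fin (d + 1) → Fin (m + 1)) (S : Fin (d + 2) → Fin (m + 1)) (j : Fin s) :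
    RM s T S (Fin.castAdd (d + 1) j).succ =
      Fin.cons 0 fun i => wT (TT s T) (Sum.inr (Sum.inl j)) i := by
  exact Fin.append_left (α := Fin (s + (d + 1) + 1) → ℝ)
    (fun j : Fin s => Fin.cons 0 fun i => wT (TT s T) (Sum.inr (Sum.inl j)) i)
    (fun k : Fin (d + 1) => Fin.cons 0 fun i =>
      wT (TT s T) (Sum.inl (S k.succ)) i - wT (TT s T) (Sum.inl (S 0)) i) j

theorem RM_right (T : Fin (d + 1) → Fin (m + 1)) (S : Fin (d + 2) → Fin (m + 1))
    (k : Fin (d + 1)) : RM s T S (Fin.natAdd s k).succ =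
      Fin.cons 0 fun i =>
        wT (TT s T) (Sum.inl (S k.succ)) i - wT (TT s T) (Sum.inl (S 0)) i := by
  exact Fin.append_right (α := Fin (s + (d + 1) + 1) → ℝ)
    (fun j : Fin s => Fin.cons 0 fun i => wT (TT s T) (Sum.inr (Sum.inl j)) i)
    (fun k : Fin (d + 1) => Fin.cons 0 fun i =>
      wT (TT s T) (Sum.inl (S k.succ)) i - wT (TT s T) (Sum.inl (S 0)) i) k

theorem RM_col (T : Fin (d + 1) → Fin (m + 1)) (S : Fin (d + 2) → Fin (m + 1))
    (l : Fin (s + (d + 1))) : RM s T S l.succ 0 = 0 := by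
  refine Fin.addCases (fun j => ?_) (fun j => ?_) l
  · rw [RM_left, Fin.cons_zero]
  · rw [RM_right, Fin.cons_zero]

theorem wT_splx_zero (t t' : {s : Finset (Fin m) // s.card = d + 1}) (i : Fin (s + (d + 1))) :
    wT (TT s (vert t)) (Sum.inl (splx t' 0)) i = 0 := by
  refine Fin.addCases (fun j => ?_) (fun j => ?_) i
  · rw [wT_inl_left]
  · rw [wT_inl_right, if_neg]
    exact Fin.succ_ne_zero _

theorem det_RM (t t' : {s : Finset (Fin m) // s.card = d + 1}) :
    (RM s (vert t) (splx t')).det = if t = t' then 1 else 0 := by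
  classical
  by_cases h : t = t'
  · subst h
    rw [if_pos rfl, Matrix.det_succ_column_zero, Fin.sum_univ_succ]
    simp only [RM_col, RM_zero, mul_zero, zero_mul, Finset.sum_const_zero, add_zero, Fin.val_zero,
      pow_zero, mul_one, one_mul]
    have h2 : (RM s (vert t) (splx t)).submatrix (Fin.succAbove 0) Fin.succ = 1 := by
      ext l i
      rw [Matrix.submatrix_apply, Fin.succAbove_zero, Matrix.one_apply]
      revert l
      refine fun l => Fin.addCases (fun j => ?_) (fun j => ?_) l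
      · rw [RM_left, Fin.cons_succ]
        revert i
        refine fun i => Fin.addCases (fun i => ?_) (fun i => ?_) i
        · rw [wT_inr_left]
          by_cases hij : i = j
          · rw [if_pos hij, hij, if_pos rfl]
          · rw [if_neg hij, if_neg]
            intro h3
            exact hij (Fin.castAdd_injective _ _ h3).symm
        · rw [wT_inr_right, if_neg]
          intro h3
          have := congrArg Fin.val h3
          simp only [Fin.val_castAdd, Fin.val_natAdd] at this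
          have := j.isLt
          omega
      · rw [RM_right, Fin.cons_succ, wT_splx_zero, sub_zero]
        have e : splx t j.succ = vert t j := rfl
        rw [e]
        revert i
        refine fun i => Fin.addCases (fun i => ?_) (fun i => ?_) i
        · rw [wT_inl_left, if_neg]
          intro h3
          have := congrArg Fin.val h3
          simp only [Fin.val_castAdd, Fin.val_natAdd] at this
          have := i.isLt
          omega
        · rw [wT_inl_right]
          by_cases hij : i = j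
          · rw [if_pos (by rw [hij]), hij, if_pos rfl]
          · rw [if_neg fun h3 => hij (vert_injective t h3), if_neg]
            intro h3
            apply hij
            apply Fin.ext
            have := congrArg Fin.val h3
            simp only [Fin.val_natAdd] at this
            omega
    rw [h2, Matrix.det_one]
  · rw [if_neg h]
    obtain ⟨x, hx', hx⟩ : ∃ x ∈ t'.1, x ∉ t.1 := by
      by_contra hcon
      push Not at hcon
      apply h
      apply Subtype.ext
      exact (Finset.eq_of_subset_of_card_le (fun x hx => hcon x hx) (by rw [t.2, t'.2])).symm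
    have h2 : x ∈ Set.range (t'.1.orderEmbOfFin t'.2) := by
      rw [Finset.range_orderEmbOfFin]
      exact hx'
    obtain ⟨k, hk⟩ := h2
    refine Matrix.det_eq_zero_of_row_eq_zero (Fin.natAdd s k).succ fun i => ?_
    rw [RM_right]
    refine Fin.cases ?_ (fun i => ?_) i
    · rw [Fin.cons_zero]
    · rw [Fin.cons_succ, wT_splx_zero, sub_zero]
      refine Fin.addCases (fun i => ?_) (fun i => ?_) i
      · rw [wT_inl_left]
      · rw [wT_inl_right, if_neg]
        intro e
        apply hx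
        have h3 : (t.1.orderEmbOfFin t.2 i).succ = (t'.1.orderEmbOfFin t'.2 k).succ := e
        rw [hk] at h3
        have h4 := Fin.succ_injective _ h3
        rw [← h4]
        exact Finset.orderEmbOfFin_mem _ _ _

end index

section main

variable {K : Type*} [Field K] {s d m : ℕ} {κ : Fin (s + 1) → K}
  {c : Fin (m + 1) → Fin (d + 1) → K} {a : Fin (m + 1) → K}

/-- the functions of the coordinates `w` at the vertex `T`: the forms, the `z_j`, and the
`1 + κ_j z_j + z_j²`, `j ≥ 1` -/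
noncomputable def HH (σ : K →+* ℂ) (κ : Fin (s + 1) → K) (c : Fin (m + 1) → Fin (d + 1) → K)
    (a : Fin (m + 1) → K) (T : Fin (d + 1) → Fin (m + 1)) :
    Fin (m + 1) ⊕ (Fin s ⊕ Fin s) → (Fin (s + (d + 1)) → ℂ) → ℂ
  | Sum.inl e, w => lc σ c a (xw σ c a T fun k => w (Fin.natAdd s k)) e
  | Sum.inr (Sum.inl j), w => w (Fin.castAdd (d + 1) j)
  | Sum.inr (Sum.inr j), w => w (Fin.castAdd (d + 1) j) ^ 2 +
      σ (κ j.succ) * w (Fin.castAdd (d + 1) j) + 1

theorem exists_torus (σ : K →+* ℂ) (κ : Fin (s + 1) → K)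
    (hdet : ∀ T : Fin (d + 1) → Fin (m + 1), Function.Injective T → (cm c T).det ≠ 0)
    (hgen : ∀ S : Fin (d + 2) → Fin (m + 1), Function.Injective S → ∀ x : Fin (d + 1) → K,
      ∃ i, ∑ j, c (S i) j * x j ≠ a (S i))
    {T : Fin (d + 1) → Fin (m + 1)} (hT : Function.Injective T) {ε : ℝ} (hε : 0 < ε) :
    ∃ Λ : ℝ, 1 < Λ ∧ ∀ lam : K, Λ ≤ ‖σ lam‖ → ∃ Γ : Torus (YOpen lam κ c a) (s + (d + 1)),
      (∀ θ x, Γ.e θ (ycst lam κ c a x) = σ x) ∧
      ∀ S : Fin (d + 2) → Fin (m + 1), Function.Injective S →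
        |Γ.reg (symb (yent lam κ c a S)) / Real.log ‖σ lam‖ -
          (2 * Real.pi) ^ (s + (d + 1)) * (RM s T S).det| ≤ ε := by
  classical
  choose δ hδ hclose using fun S : Fin (d + 2) → Fin (m + 1) => pairing_close (RM s T S) hε
  obtain ⟨S0, -, hS0⟩ := Finset.exists_min_image Finset.univ δ
    ⟨fun _ => 0, Finset.mem_univ _⟩
  set n1 : ℝ := (Fintype.card (Fin (m + 1) ⊕ (Fin s ⊕ Fin s)) : ℝ) with hn1
  have hn0 : (0 : ℝ) ≤ n1 := Nat.cast_nonneg _
  set δ0 : ℝ := δ S0 / (n1 + 5) with hδ0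
  have hm5 : (0 : ℝ) < n1 + 5 := by positivity
  have hδ0pos : 0 < δ0 := div_pos (hδ S0) hm5
  have hδle : ∀ S, (n1 + 4) * δ0 < δ S := by
    intro S
    have h1 := hS0 S (Finset.mem_univ S)
    have h2 : δ S0 = (n1 + 5) * δ0 := by
      rw [hδ0]
      field_simp
    linarith
  have hproj : ContDiff ℂ 2 fun w : Fin (s + (d + 1)) → ℂ =>
      fun k : Fin (d + 1) => w (Fin.natAdd s k) :=
    contDiff_pi.2 fun k => contDiff_apply ℂ ℂ _
  obtain ⟨C1, W, hC1, hWc, hWp, hWg, hWest⟩ := exists_circles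
    (H := HH σ κ c a T) (TT_injective (s := s) hT)
    (fun e => by
      rcases e with e | j | j
      · exact (contDiff_lcw σ T e).comp hproj
      · exact contDiff_apply ℂ ℂ _
      · exact (((contDiff_apply ℂ ℂ _).pow 2).add
          (contDiff_const.mul (contDiff_apply ℂ ℂ _))).add contDiff_const)
    (fun j w => by
      refine Fin.addCases (fun j => ?_) (fun k => ?_) j
      · rw [TT_left]
        rfl
      · rw [TT_right]
        show lc σ c a (xw σ c a T fun k => w (Fin.natAdd s k)) (T k) = _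
        rw [lc_xw, be_T T (hdet T hT)]
        simp only [al_T T (hdet T hT)]
        simp)
    (fun e he => by
      rcases e with e | j | j
      · show lc σ c a (xw σ c a T fun k => (0 : Fin (s + (d + 1)) → ℂ) (Fin.natAdd s k)) e ≠ 0
        rw [lc_xw]
        simp only [Pi.zero_apply, mul_zero, Finset.sum_const_zero, zero_add]
        refine (map_ne_zero σ).2 (be_ne hdet hgen hT fun k hk => ?_)
        refine he (Fin.natAdd s k) ?_
        rw [TT_right, hk]
      · exact absurd (TT_left T j) (he _)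
      · show (0 : Fin (s + (d + 1)) → ℂ) (Fin.castAdd (d + 1) j) ^ 2 +
          σ (κ j.succ) * (0 : Fin (s + (d + 1)) → ℂ) (Fin.castAdd (d + 1) j) + 1 ≠ 0
        simp) hδ0pos
  -- the functions `h i`
  set h : Fin (m + 1) ⊕ (Fin s ⊕ Fin s) → (Fin (s + (d + 1)) → ℝ) → ℂ := fun i θ =>
    match i with
    | Sum.inl e => HH σ κ c a T (Sum.inl e) (W θ)
    | Sum.inr (Sum.inl j) => HH σ κ c a T (Sum.inr (Sum.inl j)) (W θ)
    | Sum.inr (Sum.inr j) => (HH σ κ c a T (Sum.inr (Sum.inr j)) (W θ))⁻¹ with hh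
  have hg : ∀ i, Good (h i) := by
    intro i
    rcases i with e | j | j
    · exact hWg (Sum.inl e)
    · exact hWg (Sum.inr (Sum.inl j))
    · exact good_inv (hWg (Sum.inr (Sum.inr j)))
  have hlogH : ∀ i θ, |Real.log ‖h i θ‖| ≤ C1 := by
    intro i θ
    rcases i with e | j | j
    · exact (hWest (Sum.inl e) θ).1
    · exact (hWest (Sum.inr (Sum.inl j)) θ).1
    · show |Real.log ‖(HH σ κ c a T (Sum.inr (Sum.inr j)) (W θ))⁻¹‖| ≤ C1
      rw [norm_inv, Real.log_inv, abs_neg]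
      exact (hWest (Sum.inr (Sum.inr j)) θ).1
  have hlwH : ∀ i θ j, ‖lw (h i) j θ - 2 * Real.pi * Complex.I * wT (TT s T) i j‖ ≤ δ0 := by
    intro i θ j
    rcases i with e | i | i
    · exact (hWest (Sum.inl e) θ).2 j
    · exact (hWest (Sum.inr (Sum.inl i)) θ).2 j
    · have h1 := (hWest (Sum.inr (Sum.inr i)) θ).2 j
      rw [wT_inr_inr, Complex.ofReal_zero, mul_zero, sub_zero] at h1 ⊢
      have h2 := lw_inv (hWg (Sum.inr (Sum.inr i))) j θ
      have h3 : lw (h (Sum.inr (Sum.inr i))) j θ =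
          - lw (fun θ => HH σ κ c a T (Sum.inr (Sum.inr i)) (W θ)) j θ := h2
      rw [h3, norm_neg]
      exact h1
  set G : ℝ := ∑ S : Fin (d + 2) → Fin (m + 1), ∑ i, |Real.log ‖σ (gam c S i)‖| with hG
  have hG0 : 0 ≤ G := Finset.sum_nonneg fun S _ => Finset.sum_nonneg fun i _ => abs_nonneg _
  have hGS : ∀ S i, |Real.log ‖σ (gam c S i)‖| ≤ G := fun S i =>
    (Finset.single_le_sum (f := fun i => |Real.log ‖σ (gam c S i)‖|)
      (fun i _ => abs_nonneg _) (Finset.mem_univ i)).trans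
    (Finset.single_le_sum (f := fun S => ∑ i, |Real.log ‖σ (gam c S i)‖|)
      (fun S _ => Finset.sum_nonneg fun i _ => abs_nonneg _) (Finset.mem_univ S))
  have hpi := Real.pi_pos
  set k0 : ℝ := ‖σ (κ 0)‖ with hk0
  have hk00 : 0 ≤ k0 := norm_nonneg _
  set E : ℝ := 2 * Real.pi + (n1 + 1) * δ0 with hE
  have hE0 : 0 < E := by positivity
  set B : ℝ := 4 + 4 * E / δ0 with hB
  have hB4 : 4 ≤ B := by
    have : 0 ≤ 4 * E / δ0 := by positivity
    rw [hB]
    linarith
  have hBE : 4 / B ^ 2 * E ≤ δ0 := by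
    have h1 : 4 * E / δ0 ≤ B := by
      rw [hB]
      linarith
    rw [div_le_iff₀ hδ0pos] at h1
    rw [div_mul_eq_mul_div, div_le_iff₀ (by positivity)]
    have h2 : B * δ0 * 1 ≤ B * δ0 * B := mul_le_mul_of_nonneg_left (by linarith) (by positivity)
    nlinarith
  set B2 : ℝ := 2 * B + 2 * k0 + 2 * k0 * E / δ0 with hB2
  have hB2a : 0 ≤ 2 * k0 * E / δ0 := by positivity
  have hB2pos : 0 < B2 := by linarith
  have hkB : k0 / B2 ≤ 1 / 2 := by
    rw [div_le_iff₀ hB2pos]
    linarith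
  have hkE : 2 * (k0 / B2) * E ≤ δ0 := by
    have h1 : 2 * k0 * E / δ0 ≤ B2 := by linarith
    rw [div_le_iff₀ hδ0pos] at h1
    have h2 : 2 * (k0 / B2) * E = 2 * k0 * E / B2 := by ring
    rw [h2, div_le_iff₀ hB2pos]
    linarith
  have hlogB : 0 ≤ Real.log B2 := Real.log_nonneg (by linarith)
  set M : ℝ := n1 * C1 + Real.log B2 + (n1 * C1 + 2) / δ0 + (G + C1) / δ0 + 1 with hM
  have hM1 : 0 ≤ (n1 * C1 + 2) / δ0 := by positivity
  have hM2 : 0 ≤ (G + C1) / δ0 := by positivity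
  have hM3 : 0 ≤ n1 * C1 := by positivity
  refine ⟨Real.exp M + 1, by linarith [Real.exp_pos M], fun lam hlam => ?_⟩
  have hln : 0 < ‖σ lam‖ := by linarith [Real.exp_pos M]
  have hl0 : σ lam ≠ 0 := norm_pos_iff.1 hln
  set q : ℝ := Real.log ‖σ lam‖ with hqdef
  have hqM : M ≤ q := by
    rw [hqdef, Real.le_log_iff_exp_le hln]
    linarith
  have hqpos : 0 < q := by linarith
  have hq0 : q ≠ 0 := hqpos.ne'
  -- the function `Ψ`
  set F : (Fin (s + (d + 1)) → ℝ) → ℂ := fun θ => σ lam * ∏ i, h i θ with hF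
  have hgprod : Good fun θ => ∏ i, h i θ := good_prod Finset.univ hg
  have hFg : Good F := (good_const hl0).mul hgprod
  have hlogF : ∀ θ, |Real.log ‖F θ‖ - q| ≤ n1 * C1 := by
    intro θ
    have h1 : Real.log ‖F θ‖ = q + ∑ i, Real.log ‖h i θ‖ := by
      have h2 : ‖F θ‖ = ‖σ lam‖ * ∏ i, ‖h i θ‖ := by
        simp only [hF]
        rw [norm_mul, norm_prod]
      rw [h2, Real.log_mul hln.ne' (Finset.prod_ne_zero_iff.2 fun e _ =>
        norm_ne_zero_iff.2 ((hg e).ne_zero θ)), Real.log_prod fun e _ =>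
        norm_ne_zero_iff.2 ((hg e).ne_zero θ)]
    rw [h1, add_sub_cancel_left]
    refine (Finset.abs_sum_le_sum_abs _ _).trans ?_
    refine (Finset.sum_le_sum fun e _ => hlogH e θ).trans ?_
    rw [Finset.sum_const, Finset.card_univ, nsmul_eq_mul]
  have hFB : ∀ θ, B2 ≤ ‖F θ‖ := by
    intro θ
    have h1 := abs_le.1 (hlogF θ)
    have h2 : Real.log B2 ≤ Real.log ‖F θ‖ := by linarith [h1.1]
    exact (Real.log_le_log_iff hB2pos (norm_pos_iff.2 (hFg.ne_zero θ))).1 h2
  have hlwF : ∀ j θ, ‖lw F j θ - 2 * Real.pi * Complex.I‖ ≤ n1 * δ0 := by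
    intro j θ
    have h1 : lw F j θ = ∑ i, lw (h i) j θ := by
      have h2 := lw_mul (good_const (d := s + (d + 1)) hl0) hgprod j θ
      rw [lw_const, zero_add, lw_prod Finset.univ hg] at h2
      exact h2
    have h3 : (2 * Real.pi * Complex.I : ℂ) =
        ∑ i, 2 * Real.pi * Complex.I * ((wT (TT s T) i j : ℝ) : ℂ) := by
      rw [← Finset.mul_sum, ← Complex.ofReal_sum, sum_wT, Complex.ofReal_one, mul_one]
    rw [h1]
    conv_lhs => rw [h3]
    rw [← Finset.sum_sub_distrib]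
    refine (norm_sum_le _ _).trans ?_
    refine (Finset.sum_le_sum fun e _ => hlwH e θ j).trans ?_
    rw [Finset.sum_const, Finset.card_univ, nsmul_eq_mul]
  have h2pi : ‖(2 * Real.pi * Complex.I : ℂ)‖ = 2 * Real.pi := by
    rw [norm_mul, norm_mul, Complex.norm_I, Complex.norm_real, Complex.norm_ofNat, mul_one,
      Real.norm_eq_abs, abs_of_pos Real.pi_pos]
  have hnlwF : ∀ j θ, ‖lw F j θ‖ ≤ E := by
    intro j θ
    have h1 := norm_sub_norm_le (lw F j θ) (2 * Real.pi * Complex.I)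
    have h3 := hlwF j θ
    rw [h2pi] at h1
    rw [hE]
    linarith
  -- the function `Ψ - κ_0 = Ψ (1 - κ_0 / Ψ)`
  have hFi : Good fun θ => (F θ)⁻¹ := good_inv hFg
  have hsmall' : ∀ θ, ‖σ (κ 0) * (F θ)⁻¹‖ ≤ k0 / B2 := by
    intro θ
    rw [norm_mul, norm_inv, ← div_eq_mul_inv]
    exact div_le_div_of_nonneg_left hk00 hB2pos (hFB θ)
  have hsmall : ∀ θ, ‖σ (κ 0) * (F θ)⁻¹‖ ≤ 1 / 2 := fun θ => (hsmall' θ).trans hkB
  have hOg : Good fun θ => 1 - σ (κ 0) * (F θ)⁻¹ := good_one_sub (σ (κ 0)) hFi hsmall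
  set F1 : (Fin (s + (d + 1)) → ℝ) → ℂ := fun θ => F θ * (1 - σ (κ 0) * (F θ)⁻¹) with hF1
  have hF1g : Good F1 := hFg.mul hOg
  have hF1eq : ∀ θ, F1 θ = F θ - σ (κ 0) := by
    intro θ
    have h0 := hFg.ne_zero θ
    simp only [hF1]
    field_simp
  have hlogF1 : ∀ θ, |Real.log ‖F1 θ‖ - q| ≤ n1 * C1 + 1 := by
    intro θ
    have h1 : Real.log ‖F1 θ‖ = Real.log ‖F θ‖ + Real.log ‖1 - σ (κ 0) * (F θ)⁻¹‖ := by
      simp only [hF1]
      rw [norm_mul, Real.log_mul (norm_ne_zero_iff.2 (hFg.ne_zero θ))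
        (norm_ne_zero_iff.2 (hOg.ne_zero θ))]
    have h2 := abs_log_one_sub (hsmall θ)
    have h3 := hlogF θ
    have h4 : Real.log ‖F1 θ‖ - q =
        (Real.log ‖F θ‖ - q) + Real.log ‖1 - σ (κ 0) * (F θ)⁻¹‖ := by rw [h1]; ring
    rw [h4]
    exact (abs_add_le _ _).trans (add_le_add h3 h2)
  have hF1B : ∀ θ, B ≤ ‖F1 θ‖ := by
    intro θ
    simp only [hF1]
    rw [norm_mul]
    have h1 := norm_one_sub_ge (hsmall θ)
    have h2 := hFB θ
    have h3 : B2 * (1 / 2) ≤ ‖F θ‖ * ‖1 - σ (κ 0) * (F θ)⁻¹‖ :=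
      mul_le_mul h2 h1 (by norm_num) (norm_nonneg _)
    linarith
  have hF14 : ∀ θ, 4 ≤ ‖F1 θ‖ := fun θ => hB4.trans (hF1B θ)
  have hlwF1 : ∀ j θ, ‖lw F1 j θ - 2 * Real.pi * Complex.I‖ ≤ (n1 + 1) * δ0 := by
    intro j θ
    have h1 := lw_mul hFg hOg j θ
    have h2 : ‖lw (fun θ => 1 - σ (κ 0) * (F θ)⁻¹) j θ‖ ≤ δ0 := by
      refine (norm_lw_one_sub (σ (κ 0)) hFi hsmall j θ).trans (le_trans ?_ hkE)
      rw [lw_inv hFg, norm_neg]
      exact mul_le_mul (mul_le_mul_of_nonneg_left (hsmall' θ) (by norm_num)) (hnlwF j θ)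
        (norm_nonneg _) (by positivity)
    have h3 : lw F1 j θ - 2 * Real.pi * Complex.I = (lw F j θ - 2 * Real.pi * Complex.I) +
        lw (fun θ => 1 - σ (κ 0) * (F θ)⁻¹) j θ := by
      have h4 : lw F1 j θ = lw F j θ + lw (fun θ => 1 - σ (κ 0) * (F θ)⁻¹) j θ := h1
      rw [h4]
      ring
    rw [h3]
    refine (norm_add_le _ _).trans ?_
    linarith [hlwF j θ]
  have hnlwF1 : ∀ j θ, ‖lw F1 j θ‖ ≤ E := by
    intro j θ
    have h1 := norm_sub_norm_le (lw F1 j θ) (2 * Real.pi * Complex.I)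
    have h3 := hlwF1 j θ
    rw [h2pi] at h1
    rw [hE]
    linarith
  -- the points
  set X : (Fin (s + (d + 1)) → ℝ) → (Fin (d + 1) → ℂ) := fun θ =>
    xw σ c a T fun k => W θ (Fin.natAdd s k) with hXdef
  set Z : (Fin (s + (d + 1)) → ℝ) → (Fin (s + 1) → ℂ) := fun θ =>
    Fin.cons (zeta (F1 θ)) fun j => W θ (Fin.castAdd (d + 1) j) with hZdef
  set p : (Fin (s + (d + 1)) → ℝ) → (Fin (s + 1) ⊕ Fin (d + 1) → ℂ) := fun θ =>
    Sum.elim (Z θ) (X θ) with hpdef
  have hWk : ∀ k, ContDiff ℝ 2 fun θ => W θ k := fun k => contDiff_pi.1 hWc k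
  have hXc : ContDiff ℝ 2 X := ((contDiff_xw σ T).restrict_scalars ℝ).comp
    (contDiff_pi.2 fun k => hWk (Fin.natAdd s k))
  have hzetac : ContDiff ℝ 2 fun θ => zeta (F1 θ) := by
    rw [contDiff_iff_contDiffAt]
    intro θ
    exact ((contDiffAt_zeta (by linarith [hF14 θ])).restrict_scalars ℝ).comp θ
      hF1g.smooth.contDiffAt
  have hpc : ContDiff ℝ 2 p := by
    refine contDiff_pi.2 fun k => ?_
    rcases k with j | k
    · refine Fin.cases ?_ (fun j => ?_) j
      · exact hzetac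
      · exact hWk _
    · exact contDiff_pi.1 hXc k
  have hFp : ∀ θ i, F1 (θ + Pi.single i 1) = F1 θ := by
    intro θ i
    rw [hF1eq, hF1eq]
    congr 1
    simp only [hF]
    congr 1
    refine Finset.prod_congr rfl fun k _ => ?_
    rcases k with e | j | j <;> simp only [hh, hWp]
  have hpp : ∀ θ i, p (θ + Pi.single i 1) = p θ := by
    intro θ i
    simp only [hpdef, hZdef, hXdef, hWp, hFp]
  have hfac0 : ∀ θ j, W θ (Fin.castAdd (d + 1) j) ^ 2 +
      σ (κ j.succ) * W θ (Fin.castAdd (d + 1) j) + 1 ≠ 0 := fun θ j =>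
    (hWg (Sum.inr (Sum.inr j))).ne_zero θ
  have hw0 : ∀ θ j, W θ (Fin.castAdd (d + 1) j) ≠ 0 := fun θ j =>
    (hWg (Sum.inr (Sum.inl j))).ne_zero θ
  have hl00 : ∀ θ e, lc σ c a (X θ) e ≠ 0 := fun θ e => (hWg (Sum.inl e)).ne_zero θ
  have hzeta0 : ∀ θ, zeta (F1 θ) ≠ 0 := by
    intro θ h0
    have h1 := zeta_eq (w := F1 θ) (by linarith [hF14 θ])
    rw [h0] at h1
    norm_num at h1
  have hFprod : ∀ θ, F θ * ∏ j : Fin s, (W θ (Fin.castAdd (d + 1) j) ^ 2 +
      σ (κ j.succ) * W θ (Fin.castAdd (d + 1) j) + 1) =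
      (σ lam * ∏ e, lc σ c a (X θ) e) * ∏ j : Fin s, W θ (Fin.castAdd (d + 1) j) := by
    intro θ
    have h1 : F θ = σ lam * ((∏ e, lc σ c a (X θ) e) *
        ((∏ j : Fin s, W θ (Fin.castAdd (d + 1) j)) *
        ∏ j : Fin s, (W θ (Fin.castAdd (d + 1) j) ^ 2 +
          σ (κ j.succ) * W θ (Fin.castAdd (d + 1) j) + 1)⁻¹)) := by
      simp only [hF]
      rw [Fintype.prod_sum_type, Fintype.prod_sum_type]
      rfl
    rw [h1, Finset.prod_inv_distrib]
    have h2 : ∏ j : Fin s, (W θ (Fin.castAdd (d + 1) j) ^ 2 +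
        σ (κ j.succ) * W θ (Fin.castAdd (d + 1) j) + 1) ≠ 0 :=
      Finset.prod_ne_zero_iff.2 fun j _ => hfac0 θ j
    have h3 : ∀ l A w P : ℂ, P ≠ 0 → l * (A * (w * P⁻¹)) * P = (l * A) * w := by
      intro l A w P hP
      field_simp
    exact h3 _ _ _ _ h2
  have hPt : ∀ θ, YPt σ lam κ c a (p θ) := by
    intro θ
    have hinl0 : p θ (Sum.inl 0) = zeta (F1 θ) := rfl
    have hinlS : ∀ j : Fin s, p θ (Sum.inl j.succ) = W θ (Fin.castAdd (d + 1) j) := fun j => rfl
    have hinr : (fun j => p θ (Sum.inr j)) = X θ := rfl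
    constructor
    · have e1 : ∏ j, (p θ (Sum.inl j) ^ 2 + σ (κ j) * p θ (Sum.inl j) + 1) =
          (zeta (F1 θ) ^ 2 + σ (κ 0) * zeta (F1 θ) + 1) *
          ∏ j : Fin s, (W θ (Fin.castAdd (d + 1) j) ^ 2 +
            σ (κ j.succ) * W θ (Fin.castAdd (d + 1) j) + 1) := Fin.prod_univ_succ _
      have e2 : ∏ j, p θ (Sum.inl j) =
          zeta (F1 θ) * ∏ j : Fin s, W θ (Fin.castAdd (d + 1) j) := Fin.prod_univ_succ _
      rw [eval_ceqn, e1, e2, hinr]
      have h1 := zeta_eq (w := F1 θ) (by linarith [hF14 θ])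
      rw [hF1eq] at h1 ⊢
      have h2 := hFprod θ
      linear_combination (∏ j : Fin s, (W θ (Fin.castAdd (d + 1) j) ^ 2 +
        σ (κ j.succ) * W θ (Fin.castAdd (d + 1) j) + 1)) * h1 + zeta (F θ - σ (κ 0)) * h2
    · rw [MvPolynomial.eval₂_mul, eval_cPhi, eval_cmon, hinr]
      refine mul_ne_zero (mul_ne_zero hl0 (Finset.prod_ne_zero_iff.2 fun e _ => hl00 θ e))
        (Finset.prod_ne_zero_iff.2 fun j _ => ?_)
      refine Fin.cases ?_ (fun j => ?_) j
      · exact hzeta0 θ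
      · exact hw0 θ j
  refine ⟨mkY p hpc hpp hPt, fun θ x => (hPt θ).evA_ycst x, fun S hS => ?_⟩
  rw [Torus.reg_symb]
  set Γ := mkY p hpc hpp hPt with hΓ
  have hγ : ∀ i, gam c S i ≠ 0 := by
    intro i
    unfold gam
    exact mul_ne_zero (pow_ne_zero _ (by norm_num)) (hdet _ (injective_face hS i))
  have hγc : ∀ i, σ (gam c S i) ≠ 0 := fun i => (map_ne_zero σ).2 (hγ i)
  have hgz : ∀ i, Γ.fn (yg lam κ c a S i : YOpen lam κ c a) =
      fun θ => σ (gam c S i) * h (Sum.inl (S i)) θ := fun i =>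
    mkY_yg p hpc hpp hPt S i (hγ i)
  have hgoodZ : ∀ i, Good (Γ.fn (yg lam κ c a S i : YOpen lam κ c a)) := fun i => Γ.good _
  have hgoodE : ∀ l, Good (Γ.fn (yent lam κ c a S l : YOpen lam κ c a)) := fun l => Γ.good _
  have hn4 : 2 * δ0 ≤ (n1 + 4) * δ0 := mul_le_mul_of_nonneg_right (by linarith) hδ0pos.le
  -- estimates for the `γ_i L_{S i}`
  have hZlog : ∀ i θ, |Real.log ‖Γ.fn (yg lam κ c a S i : YOpen lam κ c a) θ‖ / q| ≤ δ0 := by
    intro i θ
    rw [congrFun (hgz i) θ, norm_mul, Real.log_mul (norm_ne_zero_iff.2 (hγc i))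
      (norm_ne_zero_iff.2 ((hg (Sum.inl (S i))).ne_zero θ)), abs_div, abs_of_pos hqpos,
      div_le_iff₀ hqpos]
    have h1 := hGS S i
    have h2 := hlogH (Sum.inl (S i)) θ
    have h3 : (G + C1) / δ0 ≤ q := by linarith
    rw [div_le_iff₀ hδ0pos] at h3
    refine (abs_add_le _ _).trans ?_
    linarith
  have hZlw : ∀ i j θ, ‖lw (Γ.fn (yg lam κ c a S i : YOpen lam κ c a)) j θ -
      2 * Real.pi * Complex.I * wT (TT s T) (Sum.inl (S i)) j‖ ≤ δ0 := by
    intro i j θ
    have h1 := lw_mul (good_const (d := s + (d + 1)) (hγc i)) (hg (Sum.inl (S i))) j θ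
    rw [lw_const, zero_add] at h1
    rw [hgz i]
    have h2 : lw (fun θ => σ (gam c S i) * h (Sum.inl (S i)) θ) j θ =
      lw (h (Sum.inl (S i))) j θ := h1
    rw [h2]
    exact hlwH (Sum.inl (S i)) θ j
  have hent : ∀ k : Fin (d + 1), yent lam κ c a S (Fin.natAdd s k).succ =
      yg lam κ c a S k.succ / yg lam κ c a S 0 := by
    intro k
    unfold yent
    rw [Fin.cons_succ, Fin.append_right]
  have hentl : ∀ j : Fin s, yent lam κ c a S (Fin.castAdd (d + 1) j).succ =
      uz lam κ c a j.succ := by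
    intro j
    unfold yent
    rw [Fin.cons_succ, Fin.append_left]
  have hmul : ∀ k : Fin (d + 1), (fun θ => Γ.fn (yent lam κ c a S (Fin.natAdd s k).succ :
      YOpen lam κ c a) θ * Γ.fn (yg lam κ c a S 0 : YOpen lam κ c a) θ) =
      Γ.fn (yg lam κ c a S k.succ : YOpen lam κ c a) := by
    intro k
    funext θ
    unfold Torus.fn
    rw [← map_mul, ← Units.val_mul, hent, div_mul_cancel]
  have hzfn : Γ.fn (yent lam κ c a S 0 : YOpen lam κ c a) = fun θ => F1 θ * hs (F1 θ) :=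
    mkY_uz p hpc hpp hPt 0
  have hwfn : ∀ j : Fin s, Γ.fn (yent lam κ c a S (Fin.castAdd (d + 1) j).succ :
      YOpen lam κ c a) = h (Sum.inr (Sum.inl j)) := by
    intro j
    rw [hentl]
    exact mkY_uz p hpc hpp hPt j.succ
  have hgh := good_hs_comp hF1g hF14
  refine hclose S _ _ hq0 hgoodE (fun l θ => ?_) (fun l j θ => ?_)
  · revert l
    refine Fin.cases ?_ (fun l => ?_)
    · rw [RM_zero, congrFun hzfn θ, norm_mul, Real.log_mul (norm_ne_zero_iff.2 (hF1g.ne_zero θ))
        (norm_ne_zero_iff.2 (hgh.ne_zero θ))]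
      have h1 := hlogF1 θ
      have h2 : |Real.log ‖hs (F1 θ)‖| ≤ 1 := by
        refine (abs_log_norm_hs (hF14 θ)).trans ?_
        rw [div_le_one (by have := hF14 θ; positivity)]
        nlinarith [hF14 θ]
      have h3 : (n1 * C1 + 2) / δ0 ≤ q := by linarith
      rw [div_le_iff₀ hδ0pos] at h3
      have h4 : (Real.log ‖F1 θ‖ + Real.log ‖hs (F1 θ)‖) / q - 1 =
          ((Real.log ‖F1 θ‖ - q) + Real.log ‖hs (F1 θ)‖) / q := by
        field_simp
        ring
      rw [h4, abs_div, abs_of_pos hqpos]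
      have h5 : |(Real.log ‖F1 θ‖ - q) + Real.log ‖hs (F1 θ)‖| / q ≤ δ0 := by
        rw [div_le_iff₀ hqpos]
        refine (abs_add_le _ _).trans ?_
        linarith
      have h6 := hδle S
      linarith
    · rw [RM_col, sub_zero]
      refine lt_of_le_of_lt ?_ (hδle S)
      refine Fin.addCases (fun j => ?_) (fun k => ?_) l
      · rw [hwfn, abs_div, abs_of_pos hqpos, div_le_iff₀ hqpos]
        have h2 := hlogH (Sum.inr (Sum.inl j)) θ
        have h3 : (G + C1) / δ0 ≤ q := by linarith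
        rw [div_le_iff₀ hδ0pos] at h3
        have h4 : δ0 * q ≤ (n1 + 4) * δ0 * q :=
          mul_le_mul_of_nonneg_right (by linarith) hqpos.le
        linarith
      · have h1 := hZlog k.succ θ
        have h2 := hZlog 0 θ
        have h3 : Real.log ‖Γ.fn (yent lam κ c a S (Fin.natAdd s k).succ :
            YOpen lam κ c a) θ * Γ.fn (yg lam κ c a S 0 : YOpen lam κ c a) θ‖ =
            Real.log ‖Γ.fn (yg lam κ c a S k.succ : YOpen lam κ c a) θ‖ :=
          congrArg (fun z : ℂ => Real.log ‖z‖) (congrFun (hmul k) θ)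
        rw [norm_mul, Real.log_mul (norm_ne_zero_iff.2 ((hgoodE _).ne_zero θ))
          (norm_ne_zero_iff.2 ((hgoodZ 0).ne_zero θ))] at h3
        have h4 : Real.log ‖Γ.fn (yent lam κ c a S (Fin.natAdd s k).succ :
            YOpen lam κ c a) θ‖ =
            Real.log ‖Γ.fn (yg lam κ c a S k.succ : YOpen lam κ c a) θ‖ -
            Real.log ‖Γ.fn (yg lam κ c a S 0 : YOpen lam κ c a) θ‖ := by
          linarith
        rw [h4, sub_div]
        have h5 := abs_le.1 h1
        have h6 := abs_le.1 h2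
        rw [abs_le]
        constructor <;> linarith [h5.1, h5.2, h6.1, h6.2]
  · revert l
    refine Fin.cases ?_ (fun l => ?_)
    · rw [RM_zero, hzfn, lw_mul hF1g hgh, Complex.ofReal_one, mul_one]
      have h1 := hlwF1 j θ
      have h2 : ‖lw (fun θ => hs (F1 θ)) j θ‖ ≤ δ0 := by
        refine (norm_lw_hs_comp hF1g hF14 j θ).trans (le_trans ?_ hBE)
        refine mul_le_mul ?_ (hnlwF1 j θ) (norm_nonneg _) (by positivity)
        refine div_le_div_of_nonneg_left (by norm_num) (by positivity) ?_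
        exact pow_le_pow_left₀ (by linarith) (hF1B θ) 2
      have h3 : lw F1 j θ + lw (fun θ => hs (F1 θ)) j θ - 2 * Real.pi * Complex.I =
          (lw F1 j θ - 2 * Real.pi * Complex.I) + lw (fun θ => hs (F1 θ)) j θ := by ring
      rw [h3]
      refine lt_of_le_of_lt ((norm_add_le _ _).trans (add_le_add h1 h2)) ?_
      have h4 := hδle S
      linarith
    · refine lt_of_le_of_lt ?_ (hδle S)
      refine Fin.addCases (fun i => ?_) (fun k => ?_) l
      · rw [RM_left, Fin.cons_succ, hwfn]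
        exact (hlwH (Sum.inr (Sum.inl i)) θ j).trans (by linarith)
      · rw [RM_right, Fin.cons_succ]
        have h1 := hZlw k.succ j θ
        have h2 := hZlw 0 j θ
        have h3 := lw_mul (hgoodE (Fin.natAdd s k).succ) (hgoodZ 0) j θ
        rw [hmul k] at h3
        have h4 : lw (Γ.fn (yent lam κ c a S (Fin.natAdd s k).succ : YOpen lam κ c a)) j θ =
            lw (Γ.fn (yg lam κ c a S k.succ : YOpen lam κ c a)) j θ -
            lw (Γ.fn (yg lam κ c a S 0 : YOpen lam κ c a)) j θ := by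
          rw [h3]
          ring
        rw [h4]
        have e2 : lw (Γ.fn (yg lam κ c a S k.succ : YOpen lam κ c a)) j θ -
            lw (Γ.fn (yg lam κ c a S 0 : YOpen lam κ c a)) j θ - 2 * Real.pi * Complex.I *
              ((wT (TT s T) (Sum.inl (S k.succ)) j - wT (TT s T) (Sum.inl (S 0)) j : ℝ) : ℂ) =
            (lw (Γ.fn (yg lam κ c a S k.succ : YOpen lam κ c a)) j θ -
              2 * Real.pi * Complex.I * wT (TT s T) (Sum.inl (S k.succ)) j) -
            (lw (Γ.fn (yg lam κ c a S 0 : YOpen lam κ c a)) j θ -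
              2 * Real.pi * Complex.I * wT (TT s T) (Sum.inl (S 0)) j) := by
          push_cast
          ring
        rw [e2]
        refine (norm_sub_le _ _).trans ?_
        linarith

theorem exists_tori (σ : K →+* ℂ) (κ : Fin (s + 1) → K)
    (hdet : ∀ T : Fin (d + 1) → Fin (m + 1), Function.Injective T → (cm c T).det ≠ 0)
    (hgen : ∀ S : Fin (d + 2) → Fin (m + 1), Function.Injective S → ∀ x : Fin (d + 1) → K,
      ∃ i, ∑ j, c (S i) j * x j ≠ a (S i)) :
    ∃ C : ℝ, 1 ≤ C ∧ ∀ lam : K, C ≤ ‖σ lam‖ →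
      ∃ Γ : {s : Finset (Fin m) // s.card = d + 1} → Torus (YOpen lam κ c a) (s + (d + 1)),
        (∀ t θ x, (Γ t).e θ (ycst lam κ c a x) = σ x) ∧
        (Matrix.of fun t i : {s : Finset (Fin m) // s.card = d + 1} =>
          (Γ t).reg (symb (yent lam κ c a (splx i)))).det ≠ 0 := by
  classical
  set D0 : ℝ := (2 * Real.pi) ^ (s + (d + 1)) with hD0
  have hD : D0 ≠ 0 := by
    have := Real.pi_pos
    positivity
  have hlead : (D0 • (1 : Matrix {s : Finset (Fin m) // s.card = d + 1}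
      {s : Finset (Fin m) // s.card = d + 1} ℝ)).det ≠ 0 := by
    rw [Matrix.det_smul, Matrix.det_one, mul_one]
    exact pow_ne_zero _ hD
  obtain ⟨δ, hδ, hdet'⟩ := det_ne_zero_near _ hlead
  choose Λ hΛ1 hΛ using fun t : {s : Finset (Fin m) // s.card = d + 1} =>
    exists_torus (a := a) σ κ hdet hgen (vert_injective t) (ε := δ / 2) (by linarith)
  set C : ℝ := ∑ t, |Λ t| + 2 with hC
  have hsum : 0 ≤ ∑ t, |Λ t| := Finset.sum_nonneg fun J _ => abs_nonneg _
  have hΛC : ∀ t, Λ t ≤ C := by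
    intro t
    have h1 := Finset.single_le_sum (f := fun t => |Λ t|) (fun t _ => abs_nonneg _)
      (Finset.mem_univ t)
    have h2 := le_abs_self (Λ t)
    have h3 : |Λ t| ≤ ∑ t, |Λ t| := h1
    linarith
  refine ⟨C, by linarith, fun lam hlam => ?_⟩
  choose Γ hΓ1 hΓ2 using fun t => hΛ t lam ((hΛC t).trans hlam)
  refine ⟨Γ, hΓ1, ?_⟩
  have hs : Real.log ‖σ lam‖ ≠ 0 := by
    have : 0 < Real.log ‖σ lam‖ := Real.log_pos (by linarith)
    linarith
  set q : ℝ := Real.log ‖σ lam‖ with hqdef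
  have h1 : (Matrix.of fun t i : {s : Finset (Fin m) // s.card = d + 1} =>
      (Γ t).reg (symb (yent lam κ c a (splx i))) / q).det ≠ 0 := by
    refine hdet' _ fun t i => ?_
    rw [Matrix.of_apply, Matrix.smul_apply, Matrix.one_apply, smul_eq_mul]
    refine lt_of_le_of_lt ?_ (show δ / 2 < δ by linarith)
    have h2 := hΓ2 t (splx i) (splx_injective i)
    rwa [det_RM] at h2
  have h2 : (Matrix.of fun t i : {s : Finset (Fin m) // s.card = d + 1} =>
      (Γ t).reg (symb (yent lam κ c a (splx i)))) =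
      q • (Matrix.of fun t i : {s : Finset (Fin m) // s.card = d + 1} =>
        (Γ t).reg (symb (yent lam κ c a (splx i))) / q) := by
    ext t i
    rw [Matrix.smul_apply, Matrix.of_apply, Matrix.of_apply, smul_eq_mul]
    field_simp
  rw [h2, Matrix.det_smul]
  exact mul_ne_zero (pow_ne_zero _ hs) h1

end main

end Pool.Agent.TH333.CY
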