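import Pool.Agent.TH826.DC.Ring
set_option autoImplicit false

/-!
The fibrations `∏_j (z_j + κ_j + 1/z_j) = λ ∏_e L_e` over the affine space, and the symbols
`{z_0, ..., z_s, γ_1 L_{S 1}/(γ_0 L_{S 0}), ..., γ_n L_{S n}/(γ_0 L_{S 0})}`.
-/

namespace Pool.Agent.TH333.CY

open scoped WithZero

open Pool.Agent.TH826.MK (KQ symb Unramified unitPart)

open Pool.Agent.TH826.GA

open Pool.Agent.TH826.DC (dPhi dPhi_ne_C)

section Ring

variable {K : Type*} [Field K] {s d m : ℕ} (lam : K) (κ : Fin (s + 1) → K)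
  (c : Fin (m + 1) → Fin (d + 1) → K) (a : Fin (m + 1) → K)

/-- The polynomial `Φ = λ ∏_e L_e` in the variables `x_0, ..., x_d`, as a polynomial in the variables
`z_0, ..., z_s, x_0, ..., x_d`. -/
noncomputable def cPhi (s : ℕ) : MvPolynomial (Fin (s + 1) ⊕ Fin (d + 1)) K :=
  MvPolynomial.rename Sum.inr (dPhi lam c a)

/-- The polynomial `z_j² + κ_j z_j + 1`. -/
noncomputable def cfac (d : ℕ) (j : Fin (s + 1)) : MvPolynomial (Fin (s + 1) ⊕ Fin (d + 1)) K :=
  MvPolynomial.X (Sum.inl j) ^ 2 + MvPolynomial.C (κ j) * MvPolynomial.X (Sum.inl j) + 1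

/-- The product of the variables `z_j`. -/
noncomputable def cmon (K : Type*) [Field K] (s d : ℕ) :
    MvPolynomial (Fin (s + 1) ⊕ Fin (d + 1)) K :=
  ∏ j, MvPolynomial.X (Sum.inl j)

/-- The equation `∏_j (z_j² + κ_j z_j + 1) - Φ ∏_j z_j`. -/
noncomputable def ceqn : MvPolynomial (Fin (s + 1) ⊕ Fin (d + 1)) K :=
  ∏ j, cfac κ d j - cPhi lam c a s * cmon K s d

/-- The coordinate ring of the hypersurface `∏_j (z_j² + κ_j z_j + 1) = Φ ∏_j z_j` in the affine
space with the coordinates `z_0, ..., z_s, x_0, ..., x_d`. -/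
def YRing : Type _ :=
  MvPolynomial (Fin (s + 1) ⊕ Fin (d + 1)) K ⧸ Ideal.span {ceqn lam κ c a}

noncomputable instance : CommRing (YRing lam κ c a) :=
  Ideal.Quotient.commRing (Ideal.span {ceqn lam κ c a})

/-- The polynomials as functions on the hypersurface. -/
noncomputable def ypol : MvPolynomial (Fin (s + 1) ⊕ Fin (d + 1)) K →+* YRing lam κ c a :=
  Ideal.Quotient.mk (Ideal.span {ceqn lam κ c a})

/-- The function `Φ ∏_j z_j` on the hypersurface. -/
noncomputable def ydel : YRing lam κ c a := ypol lam κ c a (cPhi lam c a s * cmon K s d)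

/-- The polynomial `Φ ∏_j z_j T - 1`. -/
noncomputable def yeqnO : Polynomial (YRing lam κ c a) :=
  Polynomial.C (ydel lam κ c a) * Polynomial.X - 1

/-- The coordinate ring of the open part `Φ ∏_j z_j ≠ 0` of the hypersurface: the ring obtained from
the coordinate ring of the hypersurface by adjoining `T` with `Φ ∏_j z_j T = 1`. -/
def YOpen : Type _ := AdjoinRoot (yeqnO lam κ c a)

noncomputable instance : CommRing (YOpen lam κ c a) := AdjoinRoot.instCommRing (yeqnO lam κ c a)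

/-- The restriction of functions to the open part. -/
noncomputable def toY : YRing lam κ c a →+* YOpen lam κ c a := AdjoinRoot.of (yeqnO lam κ c a)

/-- The constants. -/
noncomputable def ycst : K →+* YOpen lam κ c a :=
  (toY lam κ c a).comp ((ypol lam κ c a).comp MvPolynomial.C)

theorem ypol_ceqn : ypol lam κ c a (ceqn lam κ c a) = 0 :=
  Ideal.Quotient.eq_zero_iff_mem.2 (Ideal.subset_span rfl)

theorem isUnit_ydel : IsUnit (toY lam κ c a (ydel lam κ c a)) := by
  have h := AdjoinRoot.mk_self (f := yeqnO lam κ c a)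
  have h2 : AdjoinRoot.mk (yeqnO lam κ c a) (yeqnO lam κ c a) =
      AdjoinRoot.of (yeqnO lam κ c a) (ydel lam κ c a) *
      AdjoinRoot.root (yeqnO lam κ c a) - 1 := by
    conv_lhs => rw [show AdjoinRoot.mk (yeqnO lam κ c a) (yeqnO lam κ c a) =
      AdjoinRoot.mk (yeqnO lam κ c a)
      (Polynomial.C (ydel lam κ c a) * Polynomial.X - 1) from rfl]
    rw [map_sub, map_mul, map_one, AdjoinRoot.mk_X, AdjoinRoot.mk_C]
  rw [h2, sub_eq_zero] at h
  exact IsUnit.of_mul_eq_one _ h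

theorem isUnit_yz (j : Fin (s + 1)) :
    IsUnit (toY lam κ c a (ypol lam κ c a (MvPolynomial.X (Sum.inl j)))) := by
  refine isUnit_of_dvd_unit (map_dvd _ (map_dvd _ ?_)) (isUnit_ydel lam κ c a)
  exact Dvd.dvd.mul_left (Finset.dvd_prod_of_mem
    (fun j => (MvPolynomial.X (Sum.inl j) : MvPolynomial (Fin (s + 1) ⊕ Fin (d + 1)) K))
    (Finset.mem_univ j)) _

theorem isUnit_yl (e : Fin (m + 1)) :
    IsUnit (toY lam κ c a (ypol lam κ c a (MvPolynomial.rename Sum.inr (lf c a e)))) := by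
  refine isUnit_of_dvd_unit (map_dvd _ (map_dvd _ ?_)) (isUnit_ydel lam κ c a)
  refine Dvd.dvd.mul_right (map_dvd (MvPolynomial.rename Sum.inr) ?_) _
  exact Dvd.dvd.mul_left (Finset.dvd_prod_of_mem (fun e => lf c a e) (Finset.mem_univ e)) _

/-- The unit `z_j`. -/
noncomputable def uz (j : Fin (s + 1)) : (YOpen lam κ c a)ˣ := (isUnit_yz lam κ c a j).unit

/-- The unit `L_e`. -/
noncomputable def yu (e : Fin (m + 1)) : (YOpen lam κ c a)ˣ := (isUnit_yl lam κ c a e).unit

theorem coe_uz (j : Fin (s + 1)) : (uz lam κ c a j : YOpen lam κ c a) =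
    toY lam κ c a (ypol lam κ c a (MvPolynomial.X (Sum.inl j))) := rfl

theorem coe_yu (e : Fin (m + 1)) : (yu lam κ c a e : YOpen lam κ c a) =
    toY lam κ c a (ypol lam κ c a (MvPolynomial.rename Sum.inr (lf c a e))) := rfl

/-- The unit `γ_i L_{S i}`, where `∑_i γ_i L_{S i}` is constant. -/
noncomputable def yg (S : Fin (d + 2) → Fin (m + 1)) (i : Fin (d + 2)) : (YOpen lam κ c a)ˣ :=
  Units.map (ycst lam κ c a : K →* YOpen lam κ c a) (ku (gam c S i)) * yu lam κ c a (S i)

/-- The entries `z_0, ..., z_s` and `γ_k L_{S k} / (γ_0 L_{S 0})`, `k = 1, ..., d + 1`, of the symbol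
of the simplex with the facets `L_{S 0}, ..., L_{S (d + 1)}`. -/
noncomputable def yent (S : Fin (d + 2) → Fin (m + 1)) :
    Fin (s + (d + 1) + 1) → (YOpen lam κ c a)ˣ :=
  Fin.cons (uz lam κ c a 0) (Fin.append (fun j : Fin s => uz lam κ c a j.succ)
    fun k : Fin (d + 1) => yg lam κ c a S k.succ / yg lam κ c a S 0)

end Ring

section quad

open Polynomial in
theorem irreducible_quad {B : Type*} [CommRing B] [IsDomain B] {G M : B} (hG : G ≠ 0)
    (h1 : ∀ p, p ∣ G → p ∣ M → IsUnit p)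
    (h2 : ∀ α β γ δ : B, α * γ = G → β * δ = G → α * δ + β * γ = M → False) :
    Irreducible (C G * X ^ 2 + C M * X + C G : B[X]) := by
  have hdeg : (C G * X ^ 2 + C M * X + C G : B[X]).natDegree = 2 :=
    natDegree_quadratic hG
  have hne : (C G * X ^ 2 + C M * X + C G : B[X]) ≠ 0 := by
    intro h
    rw [h, natDegree_zero] at hdeg
    exact absurd hdeg (by norm_num)
  have hc : ∀ p : B, C p ∣ (C G * X ^ 2 + C M * X + C G : B[X]) → IsUnit p := by
    intro p hp
    rw [C_dvd_iff_dvd_coeff] at hp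
    have hp0 := hp 0
    have hp1 := hp 1
    simp [coeff_X] at hp0 hp1
    exact h1 p hp0 hp1
  constructor
  · intro hu
    have := natDegree_eq_zero_of_isUnit hu
    omega
  · intro P Q hPQ
    have hP0 : P ≠ 0 := by rintro rfl; exact hne (by rw [hPQ, zero_mul])
    have hQ0 : Q ≠ 0 := by rintro rfl; exact hne (by rw [hPQ, mul_zero])
    have hd : P.natDegree + Q.natDegree = 2 := by
      rw [← natDegree_mul hP0 hQ0, ← hPQ, hdeg]
    rcases Nat.eq_zero_or_pos P.natDegree with hp | hp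
    · left
      rw [eq_C_of_natDegree_eq_zero hp] at hPQ ⊢
      exact (hc _ (hPQ ▸ Dvd.intro _ rfl)).map C
    rcases Nat.eq_zero_or_pos Q.natDegree with hq | hq
    · right
      rw [eq_C_of_natDegree_eq_zero hq] at hPQ ⊢
      exact (hc _ (hPQ ▸ Dvd.intro_left _ rfl)).map C
    exfalso
    obtain ⟨α, β, hP⟩ := exists_eq_X_add_C_of_natDegree_le_one (p := P) (by omega)
    obtain ⟨γ, δ, hQ⟩ := exists_eq_X_add_C_of_natDegree_le_one (p := Q) (by omega)
    have e : (C α * X + C β) * (C γ * X + C δ) =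
        C (α * γ) * X ^ 2 + C (α * δ + β * γ) * X + C (β * δ) := by
      simp only [map_mul, map_add]
      ring
    rw [hP, hQ, e] at hPQ
    have c0 := congrArg (fun p => coeff p 0) hPQ
    have c1 := congrArg (fun p => coeff p 1) hPQ
    have c2 := congrArg (fun p => coeff p 2) hPQ
    simp only [coeff_add, coeff_C_mul, coeff_X_pow, coeff_X, coeff_C] at c0 c1 c2
    norm_num at c0 c1 c2
    exact h2 α β γ δ c2.symm c0.symm c1.symm

end quad

section iso

open MvPolynomial

variable (K : Type*) [Field K] (s n : ℕ)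

/-- The polynomials in `z_0, ..., z_s, x_0, ..., x_d` as polynomials in `z_0`. -/
noncomputable def iso : MvPolynomial (Fin (s + 1) ⊕ Fin n) K ≃+*
    Polynomial (MvPolynomial (Fin s) (MvPolynomial (Fin n) K)) :=
  (sumRingEquiv K (Fin (s + 1)) (Fin n)).trans
    (finSuccEquiv (MvPolynomial (Fin n) K) s).toRingEquiv

theorem iso_zero : iso K s n (X (Sum.inl 0)) = Polynomial.X := by
  unfold iso
  rw [RingEquiv.trans_apply, sumRingEquiv_X_inl]
  exact finSuccEquiv_X_zero

theorem iso_succ (j : Fin s) : iso K s n (X (Sum.inl j.succ)) = Polynomial.C (X j) := by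
  unfold iso
  rw [RingEquiv.trans_apply, sumRingEquiv_X_inl]
  exact finSuccEquiv_X_succ

theorem iso_C (y : K) : iso K s n (C y) = Polynomial.C (C (C y)) := by
  unfold iso
  rw [RingEquiv.trans_apply, sumRingEquiv_C]
  show finSuccEquiv _ s (C (C y)) = _
  rw [finSuccEquiv_apply, eval₂Hom_C]
  rfl

theorem iso_inr (k : Fin n) : iso K s n (X (Sum.inr k)) = Polynomial.C (C (X k)) := by
  unfold iso
  rw [RingEquiv.trans_apply, sumRingEquiv_X_inr]
  show finSuccEquiv _ s (C (X k)) = _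
  rw [finSuccEquiv_apply, eval₂Hom_C]
  rfl

theorem iso_rename (p : MvPolynomial (Fin n) K) :
    iso K s n (rename Sum.inr p) = Polynomial.C (C p) := by
  induction p using MvPolynomial.induction_on with
  | C y => rw [rename_C, iso_C]
  | add p q hp hq => rw [map_add, map_add, map_add, map_add, hp, hq]
  | mul_X p k hp =>
    rw [map_mul, map_mul, map_mul, map_mul, hp, rename_X, iso_inr]

end iso

section rel

open MvPolynomial

variable {P : Type*} [CommRing P] [IsDomain P] {s : ℕ}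

/-- A divisor of the product of the `z_j² + κ_j z_j + 1` and of `F ∏_j z_j` is a unit. -/
theorem isRelPrime_fac [UniqueFactorizationMonoid P] (k : Fin s → P) {F : P} (hF : F ≠ 0) :
    IsRelPrime (∏ j, (X j ^ 2 + C (k j) * X j + 1 : MvPolynomial (Fin s) P))
      (C F * ∏ j, X j) := by
  have ev : ∀ j, MvPolynomial.eval (0 : Fin s → P) (X j ^ 2 + C (k j) * X j + 1) = 1 := by
    intro j
    simp
  refine IsRelPrime.prod_left fun j _ => ?_
  refine IsRelPrime.mul_right ?_ (IsRelPrime.prod_right fun i _ => ?_)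
  · intro q h1 h2
    obtain ⟨r, hr⟩ := h2
    have hCF : (C F : MvPolynomial (Fin s) P) ≠ 0 := by rwa [Ne, C_eq_zero]
    have hq0 : q ≠ 0 := by rintro rfl; rw [zero_mul] at hr; exact hCF hr
    have hr0 : r ≠ 0 := by rintro rfl; rw [mul_zero] at hr; exact hCF hr
    have hdeg := totalDegree_mul_of_isDomain hq0 hr0
    rw [← hr, totalDegree_C] at hdeg
    have hq : q.totalDegree = 0 := by omega
    rw [totalDegree_eq_zero_iff_eq_C] at hq
    obtain ⟨t, ht⟩ := h1
    have h3 := congrArg (MvPolynomial.eval (0 : Fin s → P)) ht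
    rw [ev, map_mul] at h3
    rw [hq] at h3 ⊢
    rw [eval_C] at h3
    exact (IsUnit.of_mul_eq_one _ h3.symm).map C
  · have hX : Prime (X i : MvPolynomial (Fin s) P) := MvPolynomial.X_prime
    refine (hX.irreducible.isRelPrime_iff_not_dvd.2 ?_).symm
    rintro ⟨t, ht⟩
    have h3 := congrArg (MvPolynomial.eval (0 : Fin s → P)) ht
    rw [ev, map_mul] at h3
    simp at h3

end rel

section Domain

variable {K : Type*} [Field K] {s d m : ℕ} {lam : K} {κ : Fin (s + 1) → K}
  {c : Fin (m + 1) → Fin (d + 1) → K} {a : Fin (m + 1) → K}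

/-- The product of the `z_j² + κ_j z_j + 1`, `j ≥ 1`. -/
noncomputable def gpr (κ : Fin (s + 1) → K) (d : ℕ) :
    MvPolynomial (Fin s) (MvPolynomial (Fin (d + 1)) K) :=
  ∏ j : Fin s, (MvPolynomial.X j ^ 2 +
    MvPolynomial.C (MvPolynomial.C (κ j.succ)) * MvPolynomial.X j + 1)

theorem iso_ceqn : iso K s (d + 1) (ceqn lam κ c a) =
    Polynomial.C (gpr κ d) * Polynomial.X ^ 2 +
      Polynomial.C (MvPolynomial.C (MvPolynomial.C (κ 0)) * gpr κ d -
        MvPolynomial.C (dPhi lam c a) * ∏ j : Fin s, MvPolynomial.X j) * Polynomial.X +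
      Polynomial.C (gpr κ d) := by
  unfold ceqn cfac cPhi cmon gpr
  rw [Fin.prod_univ_succ, Fin.prod_univ_succ]
  simp only [map_sub, map_mul, map_add, map_pow, map_one, map_prod, iso_zero, iso_succ, iso_C,
    iso_rename]
  ring

theorem eval_gpr (κ : Fin (s + 1) → K) (y : K) :
    MvPolynomial.eval (fun _ : Fin s => (MvPolynomial.C y : MvPolynomial (Fin (d + 1)) K))
      (gpr κ d) = MvPolynomial.C (∏ j : Fin s, (y ^ 2 + κ j.succ * y + 1)) := by
  unfold gpr
  simp only [map_prod, map_add, map_mul, map_pow, MvPolynomial.eval_X, MvPolynomial.eval_C,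
    map_one]

theorem gpr_ne_zero (κ : Fin (s + 1) → K) : gpr κ d ≠ 0 := by
  intro h
  have h1 := eval_gpr (d := d) κ 0
  rw [h, map_zero] at h1
  simp at h1

theorem irreducible_iso (hc : ∀ e, c e ≠ 0) (hl : lam ≠ 0) {y : K} (hy : y ≠ 0)
    (hκ : ∀ j, y ^ 2 + κ j * y + 1 ≠ 0) : Irreducible (iso K s (d + 1) (ceqn lam κ c a)) := by
  rw [iso_ceqn]
  have hF : dPhi lam c a ≠ 0 := fun h => dPhi_ne_C (a := a) hc hl 0 (by rw [h, map_zero])
  refine irreducible_quad (gpr_ne_zero κ) ?_ ?_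
  · intro p h1 h2
    refine isRelPrime_fac (fun j : Fin s => MvPolynomial.C (κ j.succ)) hF h1 ?_
    have h3 : MvPolynomial.C (dPhi lam c a) * ∏ j : Fin s, MvPolynomial.X j =
        MvPolynomial.C (MvPolynomial.C (κ 0)) * gpr κ d -
        (MvPolynomial.C (MvPolynomial.C (κ 0)) * gpr κ d -
          MvPolynomial.C (dPhi lam c a) * ∏ j : Fin s, MvPolynomial.X j) := by ring
    rw [h3]
    exact dvd_sub (Dvd.dvd.mul_left h1 _) h2
  · intro α β γ δ h1 h2 h3
    set φ : MvPolynomial (Fin s) (MvPolynomial (Fin (d + 1)) K) →+* MvPolynomial (Fin (d + 1)) K :=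
      MvPolynomial.eval (fun _ : Fin s => (MvPolynomial.C y : MvPolynomial (Fin (d + 1)) K)) with hφ
    set g : K := ∏ j : Fin s, (y ^ 2 + κ j.succ * y + 1) with hg
    have hg0 : g ≠ 0 := Finset.prod_ne_zero_iff.2 fun j _ => hκ j.succ
    have hgu : IsUnit (MvPolynomial.C g : MvPolynomial (Fin (d + 1)) K) :=
      (IsUnit.mk0 g hg0).map MvPolynomial.C
    have e1 := congrArg φ h1
    have e2 := congrArg φ h2
    have e3 := congrArg φ h3
    rw [map_mul, hφ, eval_gpr, ← hφ, ← hg] at e1 e2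
    have u1 : IsUnit (φ α) := isUnit_of_mul_isUnit_left (e1 ▸ hgu)
    have u2 : IsUnit (φ γ) := isUnit_of_mul_isUnit_right (e1 ▸ hgu)
    have u3 : IsUnit (φ β) := isUnit_of_mul_isUnit_left (e2 ▸ hgu)
    have u4 : IsUnit (φ δ) := isUnit_of_mul_isUnit_right (e2 ▸ hgu)
    obtain ⟨y1, -, w1⟩ := MvPolynomial.isUnit_iff_eq_C_of_isReduced.1 u1
    obtain ⟨y2, -, w2⟩ := MvPolynomial.isUnit_iff_eq_C_of_isReduced.1 u2
    obtain ⟨y3, -, w3⟩ := MvPolynomial.isUnit_iff_eq_C_of_isReduced.1 u3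
    obtain ⟨y4, -, w4⟩ := MvPolynomial.isUnit_iff_eq_C_of_isReduced.1 u4
    rw [map_add, map_mul, map_mul, map_sub, map_mul, map_mul, map_prod, hφ, eval_gpr, ← hφ, ← hg,
      w1, w2, w3, w4] at e3
    simp only [hφ, MvPolynomial.eval_C, MvPolynomial.eval_X, Finset.prod_const, Finset.card_univ,
      Fintype.card_fin] at e3
    have hys : y ^ s ≠ 0 := pow_ne_zero _ hy
    refine dPhi_ne_C (a := a) hc hl ((κ 0 * g - (y1 * y4 + y3 * y2)) * (y ^ s)⁻¹) ?_
    have h5 : dPhi lam c a * MvPolynomial.C (y ^ s) =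
        MvPolynomial.C (κ 0 * g - (y1 * y4 + y3 * y2)) := by
      rw [map_sub, map_add, map_mul, map_mul, map_mul, map_pow]
      linear_combination e3
    rw [map_mul, ← h5, mul_assoc, ← map_mul, mul_inv_cancel₀ hys, map_one, mul_one]

theorem prime_ceqn (hc : ∀ e, c e ≠ 0) (hl : lam ≠ 0) {y : K} (hy : y ≠ 0)
    (hκ : ∀ j, y ^ 2 + κ j * y + 1 ≠ 0) : Prime (ceqn lam κ c a) := by
  rw [← MulEquiv.prime_iff (iso K s (d + 1))]
  exact (irreducible_iso hc hl hy hκ).prime

theorem isDomain_YRing (hc : ∀ e, c e ≠ 0) (hl : lam ≠ 0) {y : K} (hy : y ≠ 0)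
    (hκ : ∀ j, y ^ 2 + κ j * y + 1 ≠ 0) : IsDomain (YRing lam κ c a) := by
  have hp := prime_ceqn (a := a) hc hl hy hκ
  have : (Ideal.span {ceqn lam κ c a}).IsPrime :=
    (Ideal.span_singleton_prime hp.ne_zero).2 hp
  exact Ideal.Quotient.isDomain (Ideal.span {ceqn lam κ c a})

theorem ydel_ne_zero (hc : ∀ e, c e ≠ 0) (hl : lam ≠ 0) : ydel lam κ c a ≠ 0 := by
  intro h
  have h1 : cPhi lam c a s * cmon K s d ∈ Ideal.span {ceqn lam κ c a} :=
    Ideal.Quotient.eq_zero_iff_mem.1 h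
  rw [Ideal.mem_span_singleton] at h1
  have h2 := map_dvd (iso K s (d + 1)) h1
  have hF : dPhi lam c a ≠ 0 := fun h => dPhi_ne_C (a := a) hc hl 0 (by rw [h, map_zero])
  have hM : (MvPolynomial.C (dPhi lam c a) * ∏ j : Fin s, MvPolynomial.X j :
      MvPolynomial (Fin s) (MvPolynomial (Fin (d + 1)) K)) ≠ 0 := by
    refine mul_ne_zero ?_ (Finset.prod_ne_zero_iff.2 fun j _ => MvPolynomial.X_ne_zero j)
    rwa [Ne, MvPolynomial.C_eq_zero]
  have e : iso K s (d + 1) (cPhi lam c a s * cmon K s d) =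
      Polynomial.C (MvPolynomial.C (dPhi lam c a) * ∏ j : Fin s, MvPolynomial.X j) *
        Polynomial.X := by
    unfold cPhi cmon
    rw [Fin.prod_univ_succ]
    simp only [map_mul, map_prod, iso_zero, iso_succ, iso_rename]
    ring
  rw [e, iso_ceqn] at h2
  have h3 := Polynomial.natDegree_le_of_dvd h2
    (mul_ne_zero (by rwa [Ne, Polynomial.C_eq_zero]) Polynomial.X_ne_zero)
  rw [Polynomial.natDegree_quadratic (gpr_ne_zero κ), Polynomial.natDegree_C_mul_X _ hM] at h3
  omega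

end Domain

section LiftY

variable {K : Type*} [Field K] {s d m : ℕ} {lam : K} {κ : Fin (s + 1) → K}
  {c : Fin (m + 1) → Fin (d + 1) → K} {a : Fin (m + 1) → K} {S : Type*} [Field S]

/-- The extension of a homomorphism with `Φ ∏_j z_j ↦ g ≠ 0` to the ring of the open part. -/
noncomputable def liftY (g : YRing lam κ c a →+* S) (hg : g (ydel lam κ c a) ≠ 0) :
    YOpen lam κ c a →+* S :=
  AdjoinRoot.lift g (g (ydel lam κ c a))⁻¹ (by
    unfold yeqnO
    simp only [Polynomial.eval₂_sub, Polynomial.eval₂_mul, Polynomial.eval₂_X,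
      Polynomial.eval₂_C, Polynomial.eval₂_one]
    rw [mul_inv_cancel₀ hg, sub_self])

theorem liftY_toY (g : YRing lam κ c a →+* S) (hg : g (ydel lam κ c a) ≠ 0)
    (b : YRing lam κ c a) : liftY g hg (toY lam κ c a b) = g b :=
  AdjoinRoot.lift_of _

theorem liftY_mk (g : YRing lam κ c a →+* S) (hg : g (ydel lam κ c a) ≠ 0)
    (p : Polynomial (YRing lam κ c a)) :
    liftY g hg (AdjoinRoot.mk (yeqnO lam κ c a) p : AdjoinRoot (yeqnO lam κ c a)) =
      p.eval₂ g (g (ydel lam κ c a))⁻¹ :=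
  AdjoinRoot.lift_mk _ p

end LiftY

end Pool.Agent.TH333.CY
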