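import Pool.Agent.TH333.CY.Ring
set_option autoImplicit false

/-!
Smoothness of the fibrations for large `λ`.
-/

namespace Pool.Agent.TH333.CY

open Pool.Agent.TH826.GA

open Pool.Agent.TH826.DC (dPhi)

section deriv

variable {K : Type*} [Field K] {s d m : ℕ} {lam : K} {κ : Fin (s + 1) → K}
  {c : Fin (m + 1) → Fin (d + 1) → K} {a : Fin (m + 1) → K}

theorem pderiv_prod_eq_zero {σ R ι : Type*} [CommRing R] (i : σ) (t : Finset ι)
    (f : ι → MvPolynomial σ R) (h : ∀ j ∈ t, MvPolynomial.pderiv i (f j) = 0) :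
    MvPolynomial.pderiv i (∏ j ∈ t, f j) = 0 := by
  classical
  induction t using Finset.induction_on with
  | empty => simp
  | insert j t hj ih =>
    rw [Finset.prod_insert hj, Derivation.leibniz, h j (Finset.mem_insert_self _ _),
      ih fun k hk => h k (Finset.mem_insert_of_mem hk)]
    simp

theorem pderiv_inl_rename (i : Fin (s + 1)) (p : MvPolynomial (Fin (d + 1)) K) :
    MvPolynomial.pderiv (Sum.inl i : Fin (s + 1) ⊕ Fin (d + 1))
      (MvPolynomial.rename Sum.inr p) = 0 := by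
  induction p using MvPolynomial.induction_on with
  | C y => rw [MvPolynomial.rename_C, MvPolynomial.pderiv_C]
  | add p q hp hq => rw [map_add, map_add, hp, hq, add_zero]
  | mul_X p k hp =>
    rw [map_mul, Derivation.leibniz, hp, MvPolynomial.rename_X,
      MvPolynomial.pderiv_X_of_ne (by simp)]
    simp

theorem pderiv_cfac_of_ne {i j : Fin (s + 1)} (h : j ≠ i) :
    MvPolynomial.pderiv (Sum.inl i : Fin (s + 1) ⊕ Fin (d + 1)) (cfac κ d j) = 0 := by
  have hX : MvPolynomial.pderiv (Sum.inl i : Fin (s + 1) ⊕ Fin (d + 1))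
      (MvPolynomial.X (Sum.inl j) : MvPolynomial (Fin (s + 1) ⊕ Fin (d + 1)) K) = 0 :=
    MvPolynomial.pderiv_X_of_ne (by simpa using h)
  unfold cfac
  rw [map_add, map_add, MvPolynomial.pderiv_C_mul, hX, MvPolynomial.pderiv_one, pow_two,
    Derivation.leibniz, hX]
  simp

theorem pderiv_cfac_self (i : Fin (s + 1)) :
    MvPolynomial.pderiv (Sum.inl i : Fin (s + 1) ⊕ Fin (d + 1)) (cfac κ d i) =
      2 * MvPolynomial.X (Sum.inl i) + MvPolynomial.C (κ i) := by
  have hX : MvPolynomial.pderiv (Sum.inl i : Fin (s + 1) ⊕ Fin (d + 1))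
      (MvPolynomial.X (Sum.inl i) : MvPolynomial (Fin (s + 1) ⊕ Fin (d + 1)) K) = 1 :=
    MvPolynomial.pderiv_X_self _
  unfold cfac
  rw [map_add, map_add, MvPolynomial.pderiv_C_mul, hX, MvPolynomial.pderiv_one, pow_two,
    Derivation.leibniz, hX]
  simp only [smul_eq_mul]
  ring

theorem pderiv_inl_ceqn (i : Fin (s + 1)) :
    MvPolynomial.pderiv (Sum.inl i : Fin (s + 1) ⊕ Fin (d + 1)) (ceqn lam κ c a) =
      (2 * MvPolynomial.X (Sum.inl i) + MvPolynomial.C (κ i)) *
        ∏ j ∈ Finset.univ.erase i, cfac κ d j -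
      cPhi lam c a s * ∏ j ∈ Finset.univ.erase i, MvPolynomial.X (Sum.inl j) := by
  unfold ceqn cmon cPhi
  rw [← Finset.mul_prod_erase Finset.univ (fun j => cfac κ d j) (Finset.mem_univ i),
    ← Finset.mul_prod_erase Finset.univ (fun j => (MvPolynomial.X (Sum.inl j) :
      MvPolynomial (Fin (s + 1) ⊕ Fin (d + 1)) K)) (Finset.mem_univ i),
    map_sub, Derivation.leibniz, Derivation.leibniz, Derivation.leibniz, pderiv_cfac_self,
    pderiv_inl_rename,
    pderiv_prod_eq_zero _ _ _ fun j hj => pderiv_cfac_of_ne (Finset.ne_of_mem_erase hj),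
    pderiv_prod_eq_zero _ _ _ fun j hj => MvPolynomial.pderiv_X_of_ne
      (by simpa using Finset.ne_of_mem_erase hj), MvPolynomial.pderiv_X_self]
  simp only [smul_eq_mul]
  ring

theorem pderiv_inr_ceqn (k : Fin (d + 1)) :
    MvPolynomial.pderiv (Sum.inr k : Fin (s + 1) ⊕ Fin (d + 1)) (ceqn lam κ c a) =
      - (MvPolynomial.rename Sum.inr (MvPolynomial.pderiv k (dPhi lam c a)) * cmon K s d) := by
  unfold ceqn cmon cPhi
  have h1 : ∀ j, MvPolynomial.pderiv (Sum.inr k : Fin (s + 1) ⊕ Fin (d + 1))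
      (MvPolynomial.X (Sum.inl j) : MvPolynomial (Fin (s + 1) ⊕ Fin (d + 1)) K) = 0 :=
    fun j => MvPolynomial.pderiv_X_of_ne (by simp)
  have h2 : ∀ j, MvPolynomial.pderiv (Sum.inr k : Fin (s + 1) ⊕ Fin (d + 1))
      (cfac κ d j) = 0 := by
    intro j
    unfold cfac
    rw [map_add, map_add, MvPolynomial.pderiv_C_mul, h1, MvPolynomial.pderiv_one, pow_two,
      Derivation.leibniz, h1]
    simp
  rw [map_sub, pderiv_prod_eq_zero _ _ _ fun j _ => h2 j, Derivation.leibniz,
    pderiv_prod_eq_zero _ _ _ fun j _ => h1 j,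
    MvPolynomial.pderiv_rename Sum.inr_injective]
  simp only [smul_eq_mul]
  ring

end deriv

section smooth

variable {K : Type*} [Field K] {s d m : ℕ} {lam : K} {κ : Fin (s + 1) → K}
  {c : Fin (m + 1) → Fin (d + 1) → K} {a : Fin (m + 1) → K}

theorem eval_cPhi (σ : K →+* ℂ) (p : Fin (s + 1) ⊕ Fin (d + 1) → ℂ) :
    MvPolynomial.eval₂ σ p (cPhi lam c a s) =
      σ lam * ∏ e, lc σ c a (fun j => p (Sum.inr j)) e := by
  unfold cPhi dPhi
  rw [MvPolynomial.eval₂_rename, MvPolynomial.eval₂_mul, MvPolynomial.eval₂_C,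
    MvPolynomial.eval₂_prod]
  simp only [eval_lf]
  rfl

theorem eval_cfac (σ : K →+* ℂ) (p : Fin (s + 1) ⊕ Fin (d + 1) → ℂ) (j : Fin (s + 1)) :
    MvPolynomial.eval₂ σ p (cfac κ d j) =
      p (Sum.inl j) ^ 2 + σ (κ j) * p (Sum.inl j) + 1 := by
  unfold cfac
  simp only [MvPolynomial.eval₂_add, MvPolynomial.eval₂_mul, MvPolynomial.eval₂_pow,
    MvPolynomial.eval₂_X, MvPolynomial.eval₂_C, MvPolynomial.eval₂_one]

theorem eval_cmon (σ : K →+* ℂ) (p : Fin (s + 1) ⊕ Fin (d + 1) → ℂ) :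
    MvPolynomial.eval₂ σ p (cmon K s d) = ∏ j, p (Sum.inl j) := by
  unfold cmon
  simp only [MvPolynomial.eval₂_prod, MvPolynomial.eval₂_X]

theorem eval_ceqn (σ : K →+* ℂ) (p : Fin (s + 1) ⊕ Fin (d + 1) → ℂ) :
    MvPolynomial.eval₂ σ p (ceqn lam κ c a) =
      ∏ j, (p (Sum.inl j) ^ 2 + σ (κ j) * p (Sum.inl j) + 1) -
      (σ lam * ∏ e, lc σ c a (fun j => p (Sum.inr j)) e) * ∏ j, p (Sum.inl j) := by
  unfold ceqn
  rw [MvPolynomial.eval₂_sub, MvPolynomial.eval₂_mul, eval_cPhi, eval_cmon,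
    MvPolynomial.eval₂_prod]
  simp only [eval_cfac]

theorem exists_smooth (σ : K →+* ℂ)
    (hdet : ∀ T : Fin (d + 1) → Fin (m + 1), Function.Injective T → (cm c T).det ≠ 0)
    (hgen : ∀ S : Fin (d + 2) → Fin (m + 1), Function.Injective S → ∀ x : Fin (d + 1) → K,
      ∃ i, ∑ j, c (S i) j * x j ≠ a (S i)) (hm : d + 1 ≤ m) (hκ : ∀ j, κ j ^ 2 ≠ 4) :
    ∃ C : ℝ, ∀ lam : K, C ≤ ‖σ lam‖ → ∀ p : Fin (s + 1) ⊕ Fin (d + 1) → ℂ,
      (∀ j, p (Sum.inl j) ≠ 0) →
      (∀ e e', e ≠ e' → lc σ c a (fun j => p (Sum.inr j)) e = 0 →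
        lc σ c a (fun j => p (Sum.inr j)) e' ≠ 0) →
      MvPolynomial.eval₂ σ p (ceqn lam κ c a) = 0 →
      ∃ i, MvPolynomial.eval₂ σ p (MvPolynomial.pderiv i (ceqn lam κ c a)) ≠ 0 := by
  classical
  obtain ⟨C, hC⟩ := Pool.Agent.TH826.GA.exists_smooth σ hdet hgen hm
  set B : ℝ := ∏ j, (‖σ (κ j)‖ + 2) with hB
  have hB0 : 0 < B := Finset.prod_pos fun j _ => by positivity
  refine ⟨|C| * B + 1, fun lam hlam p hp0 hcross hp => ?_⟩
  have hlam0 : 0 < ‖σ lam‖ := by
    have : 0 ≤ |C| * B := by positivity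
    linarith
  have hl0 : σ lam ≠ 0 := norm_pos_iff.1 hlam0
  by_contra hcon
  push Not at hcon
  set x : Fin (d + 1) → ℂ := fun j => p (Sum.inr j) with hx
  set F : ℂ := σ lam * ∏ e, lc σ c a x e with hF
  set f : Fin (s + 1) → ℂ := fun j => p (Sum.inl j) ^ 2 + σ (κ j) * p (Sum.inl j) + 1 with hf
  have heq : ∏ j, f j = F * ∏ j, p (Sum.inl j) := by
    rw [eval_ceqn, sub_eq_zero] at hp
    exact hp
  have hz0 : ∏ j, p (Sum.inl j) ≠ 0 := Finset.prod_ne_zero_iff.2 fun j _ => hp0 j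
  -- the derivatives
  have hdz : ∀ i, (p (Sum.inl i) ^ 2 - 1) * ∏ j ∈ Finset.univ.erase i, f j = 0 := by
    intro i
    have h1 := hcon (Sum.inl i)
    rw [pderiv_inl_ceqn, MvPolynomial.eval₂_sub, MvPolynomial.eval₂_mul, MvPolynomial.eval₂_mul,
      MvPolynomial.eval₂_add, MvPolynomial.eval₂_mul, MvPolynomial.eval₂_prod,
      MvPolynomial.eval₂_prod, eval_cPhi] at h1
    simp only [eval_cfac, MvPolynomial.eval₂_X, MvPolynomial.eval₂_C] at h1
    have h2 : MvPolynomial.eval₂ σ p (2 : MvPolynomial (Fin (s + 1) ⊕ Fin (d + 1)) K) = 2 := by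
      have := MvPolynomial.eval₂_natCast (f := σ) (g := p) 2
      simpa using this
    rw [h2] at h1
    have h3 : (2 * p (Sum.inl i) + σ (κ i)) * ∏ j ∈ Finset.univ.erase i, f j -
        F * ∏ j ∈ Finset.univ.erase i, p (Sum.inl j) = 0 := h1
    have h4 := Finset.mul_prod_erase Finset.univ f (Finset.mem_univ i)
    have h5 := Finset.mul_prod_erase Finset.univ (fun j => p (Sum.inl j)) (Finset.mem_univ i)
    have h6 : f i = p (Sum.inl i) ^ 2 + σ (κ i) * p (Sum.inl i) + 1 := rfl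
    rw [← h4, ← h5, h6] at heq
    linear_combination (p (Sum.inl i)) * h3 - heq
  have hdx : ∀ k, MvPolynomial.eval₂ σ x (MvPolynomial.pderiv k (∏ e, lf c a e)) = 0 := by
    intro k
    have h1 := hcon (Sum.inr k)
    rw [pderiv_inr_ceqn, MvPolynomial.eval₂_neg, neg_eq_zero, MvPolynomial.eval₂_mul, eval_cmon,
      MvPolynomial.eval₂_rename, mul_eq_zero, or_iff_left hz0] at h1
    unfold dPhi at h1
    rw [MvPolynomial.pderiv_C_mul, MvPolynomial.eval₂_mul, MvPolynomial.eval₂_C, mul_eq_zero,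
      or_iff_right hl0] at h1
    exact h1
  by_cases hf0 : ∃ i, f i = 0
  · obtain ⟨i, hi⟩ := hf0
    by_cases hf1 : ∏ j ∈ Finset.univ.erase i, f j = 0
    · -- one of the forms vanishes
      have h1 : F = 0 := by
        have h2 : ∏ j, f j = 0 := Finset.prod_eq_zero (Finset.mem_univ i) hi
        rw [h2] at heq
        exact (mul_eq_zero.1 heq.symm).resolve_right hz0
      rw [hF, mul_eq_zero, or_iff_right hl0, Finset.prod_eq_zero_iff] at h1
      obtain ⟨e, -, he⟩ := h1
      have hne : ∏ e' ∈ Finset.univ.erase e, lc σ c a x e' ≠ 0 :=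
        Finset.prod_ne_zero_iff.2 fun e' he' =>
          hcross e e' (Finset.ne_of_mem_erase he').symm he
      have hrow := Pool.Agent.TH826.DC.row_ne_zero hdet (by omega) e
      apply hrow
      funext k
      have h2 := hdx k
      rw [← Finset.mul_prod_erase Finset.univ (fun e => lf c a e) (Finset.mem_univ e),
        Derivation.leibniz, pderiv_lf] at h2
      simp only [smul_eq_mul] at h2
      rw [MvPolynomial.eval₂_add, MvPolynomial.eval₂_mul, MvPolynomial.eval₂_mul, eval_lf, he,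
        zero_mul, zero_add, MvPolynomial.eval₂_prod, MvPolynomial.eval₂_C] at h2
      simp only [eval_lf] at h2
      have h3 := (mul_eq_zero.1 h2).resolve_left hne
      exact (map_eq_zero σ).1 h3
    · have h1 := (mul_eq_zero.1 (hdz i)).resolve_right hf1
      have h2 : p (Sum.inl i) ^ 2 = 1 := by linear_combination h1
      have h3 : σ (κ i) * p (Sum.inl i) = -2 := by
        have h4 : p (Sum.inl i) ^ 2 + σ (κ i) * p (Sum.inl i) + 1 = 0 := hi
        linear_combination h4 - h2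
      apply hκ i
      apply σ.injective
      rw [map_pow, map_ofNat]
      have h5 : (σ (κ i) * p (Sum.inl i)) ^ 2 = 4 := by rw [h3]; norm_num
      rw [mul_pow, h2, mul_one] at h5
      exact h5
  · push Not at hf0
    have hsq : ∀ i, p (Sum.inl i) ^ 2 = 1 := by
      intro i
      have h1 := (mul_eq_zero.1 (hdz i)).resolve_right
        (Finset.prod_ne_zero_iff.2 fun j _ => hf0 j)
      linear_combination h1
    have hpm : ∀ i, ∃ ε : K, σ ε = p (Sum.inl i) := by
      intro i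
      have : (p (Sum.inl i) - 1) * (p (Sum.inl i) + 1) = 0 := by
        linear_combination hsq i
      rcases mul_eq_zero.1 this with h | h
      · exact ⟨1, by rw [map_one]; linear_combination -h⟩
      · exact ⟨-1, by rw [map_neg, map_one]; linear_combination -h⟩
    choose ε hε using hpm
    set V : K := ∏ j, (κ j + 2 * ε j) with hV
    have hfV : ∀ j, f j = (σ (κ j) + 2 * p (Sum.inl j)) * p (Sum.inl j) := by
      intro j
      have h1 : f j = p (Sum.inl j) ^ 2 + σ (κ j) * p (Sum.inl j) + 1 := rfl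
      rw [h1]
      linear_combination (-1 : ℂ) * hsq j
    have hσV : σ V = ∏ j, (σ (κ j) + 2 * p (Sum.inl j)) := by
      rw [hV, map_prod]
      refine Finset.prod_congr rfl fun j _ => ?_
      rw [map_add, map_mul, hε, map_ofNat]
    have hFV : F = σ V := by
      have h1 : ∏ j, f j = σ V * ∏ j, p (Sum.inl j) := by
        rw [hσV, ← Finset.prod_mul_distrib]
        exact Finset.prod_congr rfl fun j _ => hfV j
      rw [h1] at heq
      exact (mul_right_cancel₀ hz0 heq).symm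
    have hV0 : σ V ≠ 0 := by
      intro h0
      have h1 : ∏ j, f j = 0 := by rw [heq, hFV, h0, zero_mul]
      obtain ⟨j, -, hj⟩ := Finset.prod_eq_zero_iff.1 h1
      exact hf0 j hj
    have hVB : ‖σ V‖ ≤ B := by
      rw [hσV, hB, norm_prod]
      refine Finset.prod_le_prod (fun j _ => norm_nonneg _) fun j _ => ?_
      refine (norm_add_le _ _).trans ?_
      have h1 : ‖p (Sum.inl j)‖ = 1 := by
        have h2 := congrArg norm (hsq j)
        rw [norm_pow, norm_one] at h2
        nlinarith [norm_nonneg (p (Sum.inl j))]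
      rw [norm_mul, h1, Complex.norm_ofNat, mul_one]
    have hVpos : 0 < ‖σ V‖ := norm_pos_iff.2 hV0
    obtain ⟨j, hj⟩ := hC (lam * V⁻¹) (by
      rw [map_mul, norm_mul, map_inv₀, norm_inv, ← div_eq_mul_inv, le_div_iff₀ hVpos]
      calc C * ‖σ V‖ ≤ |C| * B := mul_le_mul (le_abs_self C) hVB hVpos.le (abs_nonneg C)
        _ ≤ ‖σ lam‖ := by linarith) x (by
      rw [eval_geqn, map_mul, map_inv₀]
      have h1 : σ lam * (σ V)⁻¹ * ∏ e, lc σ c a x e = F * (σ V)⁻¹ := by
        rw [hF]; ring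
      rw [h1, hFV, mul_inv_cancel₀ hV0, sub_self])
    apply hj
    unfold geqn
    rw [map_sub, MvPolynomial.pderiv_one, sub_zero, MvPolynomial.pderiv_C_mul,
      MvPolynomial.eval₂_mul, hdx j, mul_zero]

end smooth

end Pool.Agent.TH333.CY
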