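import Pool.Agent.TH333.CY.Smooth
import Pool.Agent.TH826.DC.Tori
set_option autoImplicit false

/-!
Evaluation of the functions at complex points, and tori in the fibrations.
-/

namespace Pool.Agent.TH333.CY

open Pool.Agent.TH826.MK

open Pool.Agent.TH826.GA

open Pool.Agent.TH826.DC (dPhi)

section Ev

variable {K : Type*} [Field K] {s d n m : ℕ} {σ : K →+* ℂ} {lam : K} {κ : Fin (s + 1) → K}
  {c : Fin (m + 1) → Fin (d + 1) → K} {a : Fin (m + 1) → K}

/-- The complex points of the open part. -/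
def YPt (σ : K →+* ℂ) (lam : K) (κ : Fin (s + 1) → K) (c : Fin (m + 1) → Fin (d + 1) → K)
    (a : Fin (m + 1) → K) (p : Fin (s + 1) ⊕ Fin (d + 1) → ℂ) : Prop :=
  MvPolynomial.eval₂ σ p (ceqn lam κ c a) = 0 ∧
    MvPolynomial.eval₂ σ p (cPhi lam c a s * cmon K s d) ≠ 0

/-- evaluation of the regular functions on the hypersurface -/
noncomputable def YPt.evB {p : Fin (s + 1) ⊕ Fin (d + 1) → ℂ} (hx : YPt σ lam κ c a p) :
    YRing lam κ c a →+* ℂ :=
  Ideal.Quotient.lift (Ideal.span {ceqn lam κ c a}) (MvPolynomial.eval₂Hom σ p) (by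
    intro q hq
    have hle : Ideal.span {ceqn lam κ c a} ≤ RingHom.ker (MvPolynomial.eval₂Hom σ p) := by
      rw [Ideal.span_le]
      rintro q rfl
      exact hx.1
    exact hle hq)

theorem YPt.evB_ypol {p : Fin (s + 1) ⊕ Fin (d + 1) → ℂ} (hx : YPt σ lam κ c a p)
    (q : MvPolynomial (Fin (s + 1) ⊕ Fin (d + 1)) K) :
    hx.evB (ypol lam κ c a q) = MvPolynomial.eval₂Hom σ p q :=
  Ideal.Quotient.lift_mk _ _ _

theorem YPt.evB_ne {p : Fin (s + 1) ⊕ Fin (d + 1) → ℂ} (hx : YPt σ lam κ c a p) :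
    hx.evB (ydel lam κ c a) ≠ 0 := by
  unfold ydel
  rw [hx.evB_ypol]
  exact hx.2

/-- evaluation of the regular functions on the open part -/
noncomputable def YPt.evA {p : Fin (s + 1) ⊕ Fin (d + 1) → ℂ} (hx : YPt σ lam κ c a p) :
    YOpen lam κ c a →+* ℂ :=
  liftY hx.evB hx.evB_ne

theorem YPt.evA_toY {p : Fin (s + 1) ⊕ Fin (d + 1) → ℂ} (hx : YPt σ lam κ c a p)
    (b : YRing lam κ c a) : hx.evA (toY lam κ c a b) = hx.evB b :=
  liftY_toY _ _ _

theorem YPt.evA_congr {p q : Fin (s + 1) ⊕ Fin (d + 1) → ℂ} (hx : YPt σ lam κ c a p)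
    (hy : YPt σ lam κ c a q) (h : p = q) : hx.evA = hy.evA := by
  subst h
  rfl

theorem YPt.evA_ycst {p : Fin (s + 1) ⊕ Fin (d + 1) → ℂ} (hx : YPt σ lam κ c a p) (y : K) :
    hx.evA (ycst lam κ c a y) = σ y := by
  show hx.evA (toY lam κ c a (ypol lam κ c a (MvPolynomial.C y))) = _
  rw [hx.evA_toY, hx.evB_ypol]
  simp

theorem YPt.evA_uz {p : Fin (s + 1) ⊕ Fin (d + 1) → ℂ} (hx : YPt σ lam κ c a p)
    (j : Fin (s + 1)) : hx.evA (uz lam κ c a j : YOpen lam κ c a) = p (Sum.inl j) := by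
  rw [coe_uz, hx.evA_toY, hx.evB_ypol]
  simp

theorem YPt.evA_yu {p : Fin (s + 1) ⊕ Fin (d + 1) → ℂ} (hx : YPt σ lam κ c a p)
    (e : Fin (m + 1)) : hx.evA (yu lam κ c a e : YOpen lam κ c a) =
      lc σ c a (fun j => p (Sum.inr j)) e := by
  rw [coe_yu, hx.evA_toY, hx.evB_ypol]
  show MvPolynomial.eval₂ σ p (MvPolynomial.rename Sum.inr (lf c a e)) = _
  rw [MvPolynomial.eval₂_rename, eval_lf]
  rfl

theorem contDiff_evA {p : (Fin n → ℝ) → (Fin (s + 1) ⊕ Fin (d + 1) → ℂ)} (hc : ContDiff ℝ 2 p)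
    (hx : ∀ θ, YPt σ lam κ c a (p θ)) (h : YOpen lam κ c a) :
    ContDiff ℝ 2 fun θ => (hx θ).evA h := by
  have hxk : ∀ k, ContDiff ℝ 2 fun θ => p θ k := fun k => contDiff_pi.1 hc k
  have hmv : ∀ q : MvPolynomial (Fin (s + 1) ⊕ Fin (d + 1)) K,
      ContDiff ℝ 2 fun θ => MvPolynomial.eval₂Hom σ (p θ) q := by
    intro q
    induction q using MvPolynomial.induction_on with
    | C c => simpa using contDiff_const
    | add p q hp hq => simpa using hp.add hq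
    | mul_X p k hp => simpa using hp.mul (hxk k)
  have hB : ∀ b : YRing lam κ c a, ContDiff ℝ 2 fun θ => (hx θ).evB b := by
    intro b
    obtain ⟨q, hq⟩ := Ideal.Quotient.mk_surjective b
    have e : (fun θ => (hx θ).evB b) = fun θ => MvPolynomial.eval₂Hom σ (p θ) q := by
      funext θ
      rw [← hq]
      exact (hx θ).evB_ypol q
    rw [e]
    exact hmv q
  obtain ⟨q, hq⟩ := AdjoinRoot.mk_surjective (g := yeqnO lam κ c a) h
  have e : (fun θ => (hx θ).evA h) = fun θ =>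
      ∑ i ∈ Finset.range (q.natDegree + 1), (hx θ).evB (q.coeff i) *
        ((hx θ).evB (ydel lam κ c a))⁻¹ ^ i := by
    funext θ
    rw [← hq]
    unfold YPt.evA
    rw [liftY_mk, Polynomial.eval₂_eq_sum_range]
  rw [e]
  exact ContDiff.sum fun i _ => (hB _).mul
    (((hB _).inv fun θ => (hx θ).evB_ne).pow i)

/-- a torus in the hypersurface -/
noncomputable def mkY (p : (Fin n → ℝ) → (Fin (s + 1) ⊕ Fin (d + 1) → ℂ)) (hc : ContDiff ℝ 2 p)
    (hp : ∀ θ i, p (θ + Pi.single i 1) = p θ)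
    (hx : ∀ θ, YPt σ lam κ c a (p θ)) : Torus (YOpen lam κ c a) n where
  e θ := (hx θ).evA
  smooth h := contDiff_evA hc hx h
  periodic θ i := YPt.evA_congr _ _ (hp θ i)

variable (p : (Fin n → ℝ) → (Fin (s + 1) ⊕ Fin (d + 1) → ℂ)) (hc : ContDiff ℝ 2 p)
    (hp : ∀ θ i, p (θ + Pi.single i 1) = p θ)
    (hx : ∀ θ, YPt σ lam κ c a (p θ))

theorem mkY_yg (S : Fin (d + 2) → Fin (m + 1)) (i : Fin (d + 2)) (hγ : gam c S i ≠ 0) :
    (mkY p hc hp hx).fn (yg lam κ c a S i : YOpen lam κ c a) =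
      fun θ => σ (gam c S i) * lc σ c a (fun j => p θ (Sum.inr j)) (S i) := by
  funext θ
  show (hx θ).evA (yg lam κ c a S i : YOpen lam κ c a) = _
  unfold yg
  rw [Units.val_mul, map_mul, YPt.evA_yu, Units.coe_map]
  congr 1
  show (hx θ).evA (ycst lam κ c a (ku (gam c S i) : K)) = _
  rw [YPt.evA_ycst, coe_ku hγ]

theorem mkY_uz (j : Fin (s + 1)) :
    (mkY p hc hp hx).fn (uz lam κ c a j : YOpen lam κ c a) = fun θ => p θ (Sum.inl j) := by
  funext θ
  exact (hx θ).evA_uz j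

end Ev

section sub

variable {n : ℕ} {w : (Fin n → ℝ) → ℂ}

theorem norm_one_sub_ge {w : ℂ} (h : ‖w‖ ≤ 1 / 2) : 1 / 2 ≤ ‖1 - w‖ := by
  have h1 := norm_sub_norm_le (1 : ℂ) w
  rw [norm_one] at h1
  linarith

/-- `1 - k w` for small `k w` -/
theorem good_one_sub (k : ℂ) (hw : Good w) (h : ∀ θ, ‖k * w θ‖ ≤ 1 / 2) :
    Good fun θ => 1 - k * w θ := by
  refine ⟨contDiff_const.sub (contDiff_const.mul hw.smooth), fun θ h0 => ?_⟩
  have h1 := norm_one_sub_ge (h θ)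
  rw [h0, norm_zero] at h1
  linarith

theorem abs_log_one_sub {w : ℂ} (h : ‖w‖ ≤ 1 / 2) : |Real.log ‖1 - w‖| ≤ 1 := by
  have h1 := norm_one_sub_ge h
  have h2 : ‖1 - w‖ ≤ 3 / 2 := by
    refine (norm_sub_le _ _).trans ?_
    rw [norm_one]
    linarith
  have h0 : 0 < ‖1 - w‖ := by linarith
  rw [abs_le]
  constructor
  · have h3 : Real.log (1 / 2) ≤ Real.log ‖1 - w‖ := Real.log_le_log (by norm_num) h1
    have h4 : Real.log (1 / 2 : ℝ) = -Real.log 2 := by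
      rw [one_div, Real.log_inv]
    have h5 := Real.log_two_lt_d9
    linarith
  · have h3 : Real.log ‖1 - w‖ ≤ ‖1 - w‖ - 1 := Real.log_le_sub_one_of_pos h0
    linarith

theorem norm_lw_one_sub (k : ℂ) (hw : Good w) (h : ∀ θ, ‖k * w θ‖ ≤ 1 / 2) (j : Fin n)
    (θ : Fin n → ℝ) :
    ‖lw (fun θ => 1 - k * w θ) j θ‖ ≤ 2 * ‖k * w θ‖ * ‖lw w j θ‖ := by
  have h1 : HasFDerivAt w (fderiv ℝ w θ) θ :=
    ((hw.smooth.differentiable (by norm_num)) θ).hasFDerivAt
  have h2 : fderiv ℝ (fun θ => 1 - k * w θ) θ = -(k • fderiv ℝ w θ) :=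
    ((h1.const_mul k).const_sub (1 : ℂ)).fderiv
  have h4 : lw (fun θ => 1 - k * w θ) j θ = -((k * w θ) * lw w j θ) / (1 - k * w θ) := by
    have h0 := hw.ne_zero θ
    unfold lw
    rw [h2]
    simp only [neg_apply, smul_apply, smul_eq_mul]
    congr 1
    rw [mul_assoc, mul_div_cancel₀ _ h0]
  have h5 := norm_one_sub_ge (h θ)
  rw [h4, norm_div, norm_neg, norm_mul, div_le_iff₀ (by linarith)]
  have h6 : 0 ≤ ‖k * w θ‖ * ‖lw w j θ‖ := by positivity
  nlinarith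

/-- the inverse of a good function -/
theorem good_inv (hw : Good w) : Good fun θ => (w θ)⁻¹ :=
  ⟨hw.smooth.inv hw.ne_zero, fun θ => inv_ne_zero (hw.ne_zero θ)⟩

theorem lw_inv (hw : Good w) (j : Fin n) (θ : Fin n → ℝ) :
    lw (fun θ => (w θ)⁻¹) j θ = - lw w j θ := by
  have h1 := lw_mul hw (good_inv hw) j θ
  have h2 : (fun θ => w θ * (w θ)⁻¹) = fun _ => (1 : ℂ) :=
    funext fun θ => mul_inv_cancel₀ (hw.ne_zero θ)
  rw [h2, lw_const] at h1
  linear_combination -h1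

end sub

end Pool.Agent.TH333.CY
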